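import Pool.Agent.R526.AA.Blk

/-!
The main theorem for a well distributed set of integers: for almost all its elements one of the
blocks contains no rough position.
-/

set_option autoImplicit false

open Finset

namespace Pool.Agent.R526.AA

open Pool.Agent.H361R2.PP
open Pool.Agent.H410R2.AC (wt GG cfg term WW pos Inj coef)

theorem eps_ineq {ε s c : ℝ} (hε : 0 < ε) (hε1 : ε ≤ 1) (hs0 : 0 ≤ s) (hs : s ≤ ε / 8)
    (hc0 : 0 ≤ c) (hc : c ≤ ε / 8) : 1 - ε ≤ (1 - ε / 4) ^ 2 / (1 + s + c) := by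
  rw [le_div_iff₀ (by linarith)]
  have h1 : (1 - ε) * (1 + s + c) ≤ (1 - ε) * (1 + ε / 4) := by
    apply mul_le_mul_of_nonneg_left _ (by linarith)
    linarith
  nlinarith

open Classical in
theorem almost (κ ε Dx : ℝ) (hκ : 0 < κ) (hε : 0 < ε) (hε1 : ε ≤ 1) (hDx : 0 ≤ Dx) :
    ∃ Kq Aq k : ℕ, 0 < k ∧ ∀ Λ : ℝ, 0 < Λ → ∃ X₀ : ℕ, ∀ X : ℕ, X₀ ≤ X → ∀ b0 : ℕ,
    ∀ (o : Option ℕ) (S : Finset ℕ) (Ω : ℝ) (Er : Finset ℕ → ℝ),
      (∀ n ∈ S, (n : ℝ) + X ≤ (X : ℝ) ^ Dx) → 0 < Ω →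
      Eqd o ((PX X).filter (fun p : ℕ => (p : ℝ) ≤ (X : ℝ) ^ (1 / 2 : ℝ))) S Ω Er →
      ∑ D ∈ (PX X).powerset.filter
        (fun D : Finset ℕ => ∏ p ∈ D, (p : ℝ) ≤ (X : ℝ) ^ (1 / 2 - 1 / 32 : ℝ)),
        (Kq : ℝ) ^ D.card * Er D ≤ Ω / Real.log X ^ Aq →
      ∀ B : Fin k → Finset ℕ, (∀ i, B i ⊆ BB X b0 ⌊Λ * Real.log X⌋₊) →
        (∀ i, ((B i).card : ℝ) ≤ κ * (Real.log X * (Nat.totient (Wm X) / Wm X))) →
        (∀ i j, i ≠ j → Disjoint (B i) (B j)) →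
        (∀ a ∈ o, 1 ≤ a ∧ (a : ℝ) ≤ Λ * Real.log X ∧ ∀ i, a ∉ B i) →
        (1 - ε) * Ω ≤ ((S.filter (fun n => ∃ i, ∀ a ∈ B i, ¬ Rf X (n + a))).card : ℝ) := by
  obtain ⟨θ, hθ⟩ : ∃ θ : ℝ, θ = 1 / 32 := ⟨_, rfl⟩
  obtain ⟨s, hs⟩ : ∃ s : ℝ, s = ε / (64 * (κ + 1)) := ⟨_, rfl⟩
  obtain ⟨η, hη⟩ : ∃ η : ℝ, η = ε / (64 * κ) := ⟨_, rfl⟩
  have hs0 : 0 < s := by rw [hs]; positivity
  have hη0 : 0 < η := by rw [hη]; positivity
  have hθ0 : 0 < θ := by rw [hθ]; norm_num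
  have hθ1 : θ ≤ 1 / 32 := by rw [hθ]
  have hs1 : s ≤ ε / 8 := by
    rw [hs]
    apply div_le_div_of_nonneg_left hε.le (by norm_num)
    linarith
  obtain ⟨CT, hCT1, hCT⟩ := Pool.Agent.H488R2.ggtypes Pool.Agent.H325R2.wtx
  obtain ⟨CM, hCM1, hCM⟩ := Pool.Agent.H488R2.mer Pool.Agent.H325R2.wtx
  obtain ⟨η', hη'⟩ : ∃ η' : ℝ, η' = η / (κ * CM) := ⟨_, rfl⟩
  have hη'0 : 0 < η' := by rw [hη']; positivity
  obtain ⟨t, u, β, V₀, hV₀, huβ, hβ1, hu, hty⟩ :=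
    Pool.Agent.H708R2.types CT η' (θ / 2) hCT1 hη'0 (by linarith)
  obtain ⟨Kq, Aq, δ₀, hδ₀, hδ₀8, hsm⟩ := smg t u (2 * κ) θ s Dx (fun τ => (huβ τ).1) hu hθ0 hθ1
    (by linarith) hs0 hDx
  obtain ⟨dβ, hdβ0, hdβ⟩ : ∃ d : ℝ, 0 < d ∧ ∀ τ, d ≤ β τ / η' := by
    refine ⟨1 / (∑ τ, η' / β τ + 1), ?_, fun τ => ?_⟩
    · have : 0 ≤ ∑ τ, η' / β τ := sum_nonneg fun τ _ => (div_pos hη'0 (huβ τ).2).le
      positivity
    · have h1 : η' / β τ ≤ ∑ τ, η' / β τ :=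
        single_le_sum (f := fun τ => η' / β τ) (fun τ _ => (div_pos hη'0 (huβ τ).2).le)
          (mem_univ τ)
      have h2 : 0 < η' / β τ := div_pos hη'0 (huβ τ).2
      calc 1 / (∑ τ, η' / β τ + 1) ≤ 1 / (η' / β τ) :=
            one_div_le_one_div_of_le h2 (by linarith)
        _ = β τ / η' := by rw [one_div_div]
  obtain ⟨δ, hδd⟩ : ∃ δ : ℝ, δ = min (min δ₀ V₀) (min (1 / 8) dβ) := ⟨_, rfl⟩
  have hδ0 : 0 < δ := by
    rw [hδd]
    exact lt_min (lt_min hδ₀ hV₀) (lt_min (by norm_num) hdβ0)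
  have hδ1 : δ ≤ δ₀ := by rw [hδd]; exact (min_le_left _ _).trans (min_le_left _ _)
  have hδ2 : δ ≤ V₀ := by rw [hδd]; exact (min_le_left _ _).trans (min_le_right _ _)
  have hδ3 : δ ≤ 1 / 8 := by rw [hδd]; exact (min_le_right _ _).trans (min_le_left _ _)
  have hδ4 : δ ≤ dβ := by rw [hδd]; exact (min_le_right _ _).trans (min_le_right _ _)
  obtain ⟨C, hC, hsmX⟩ := hsm δ hδ0 hδ1
  obtain ⟨k, hk⟩ := exists_nat_ge (8 * C / ε)
  refine ⟨Kq, Aq, k + 1, Nat.succ_pos _, fun Λ hΛ => ?_⟩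
  obtain ⟨X1, hX1⟩ := hsmX Λ hΛ
  obtain ⟨X2, hGX⟩ := hCT δ hδ0 hδ3
  obtain ⟨X3, hMX⟩ := hCM δ hδ0 (by linarith)
  obtain ⟨X7, hWX⟩ := Pool.Agent.H325R2.wtx.2 δ hδ0 (by linarith)
  obtain ⟨X8, hFX⟩ := log_floor (a := 1 / 4 - 2 * θ) (θ := θ) (by linarith) hθ0
  refine ⟨X1 + X2 + X3 + X7 + X8 + 2, fun X hX b0 o S Ω Er hSX hΩ hEq hEs B hB hBc hBd ho => ?_⟩
  have hX2 : 2 ≤ X := by omega
  have hX1' : 1 ≤ X := by omega
  have hL : 0 < Real.log X := Real.log_pos (by exact_mod_cast hX2)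
  obtain ⟨hw1, -, hw3⟩ := hWX X (by omega)
  have hJ : 2 ^ 2 ^ JJ δ X ≤ X := by
    have h1 : (X : ℝ) ^ δ ≤ (X : ℝ) ^ (1 : ℝ) :=
      Real.rpow_le_rpow_of_exponent_le (by exact_mod_cast hX1') (by linarith)
    rw [Real.rpow_one] at h1
    exact_mod_cast hw1.trans h1
  obtain ⟨hV0, hM1, hM2⟩ := hMX X (by omega)
  obtain ⟨hF1, hF2⟩ := hFX X (by omega)
  -- families
  obtain ⟨F, hF_1, hF_2, hF_3, hF_4⟩ := fam_of (X := X) (T := θ / 2) hδ0 hL (by linarith)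
    (hty δ · · · hδ0 hδ2) (hGX X (by omega))
  have hβ : ∀ τ, 0 < β τ := fun τ => (huβ τ).2
  have hG0 : ∀ τ, 0 < GG (F τ) := fun τ => lt_of_lt_of_le (by have := hβ τ; positivity) (hF_4 τ)
  let D : Dat t u 1 δ X :=
    { S := F
      g := fun τ => β τ / GG (F τ)
      cf := fun _ => -1
      hS := hF_1
      h0 := hF_2
      hd := hF_3
      hg := by
        intro τ
        have h1 := hβ τ
        refine ⟨(div_pos h1 (hG0 τ)).le, ?_⟩
        rw [div_le_one (hG0 τ)]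
        refine le_trans ?_ (hF_4 τ)
        rw [le_div_iff₀ (by positivity)]
        have h2 := hδ4.trans (hdβ τ)
        rw [le_div_iff₀ hη'0] at h2
        nlinarith
      hc := by
        intro a
        rw [abs_neg, abs_one] }
  have hqq : ∀ τ a, qq D τ a ≤ (η' * δ) * VV δ X := by
    intro τ a
    have h1 : qq D τ a = (β τ ^ 2 / GG (F τ)) * VV δ X := by
      change (-1 : ℝ) ^ 2 * ((β τ / GG (F τ)) ^ 2 * (VV δ X * GG (F τ))) = _
      have := (hG0 τ).ne'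
      field_simp
    rw [h1]
    have h2 : β τ ^ 2 / GG (F τ) ≤ η' * δ := by
      rw [div_le_iff₀ (hG0 τ)]
      have := hF_4 τ
      rw [div_le_iff₀ (by positivity)] at this
      linarith
    exact mul_le_mul_of_nonneg_right h2 hV0.le
  set f : ℝ := (Nat.totient (Wm X) : ℝ) / Wm X with hf
  have hf0 : 0 ≤ f := by rw [hf]; positivity
  have hη1 : ∀ i τ, ∑ a ∈ B i, qq D τ a ≤ η := by
    intro i τ
    calc ∑ a ∈ B i, qq D τ a ≤ ∑ a ∈ B i, (η' * δ) * VV δ X := sum_le_sum fun a _ => hqq τ a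
      _ = ((B i).card : ℝ) * ((η' * δ) * VV δ X) := by rw [sum_const, nsmul_eq_mul]
      _ ≤ κ * (Real.log X * f) * ((η' * δ) * VV δ X) :=
          mul_le_mul_of_nonneg_right (hBc i) (by positivity)
      _ = κ * η' * (VV δ X * f * (δ * Real.log X)) := by ring
      _ ≤ κ * η' * CM := mul_le_mul_of_nonneg_left hM1 (by positivity)
      _ = η := by
          rw [hη']
          field_simp
  have hVG := VG_le (δ := δ) Pool.Agent.H633R2.ggSharp hθ0 hθ1 hX1' hM2 hV0 hF1 hF2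
  have hG1 : 1 ≤ GG (S1 δ θ X) := GG1_ge hX1' hθ1
  have hκ' : ∀ i, ((B i).card : ℝ) * (VV δ X / GG (S1 δ θ X)) ≤ 7 * κ := by
    intro i
    have h1 : ((B i).card : ℝ) * (VV δ X / GG (S1 δ θ X)) ≤
        κ * (Real.log X * f) * (VV δ X / GG (S1 δ θ X)) :=
      mul_le_mul_of_nonneg_right (hBc i) (by positivity)
    have h2 : VV δ X / GG (S1 δ θ X) * (f * ((5 / 32) * Real.log X)) ≤ 1 := by
      rw [hθ] at hVG ⊢
      norm_num at hVG ⊢
      exact hVG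
    have h3 : κ * (Real.log X * f) * (VV δ X / GG (S1 δ θ X)) =
        (32 / 5) * κ * (VV δ X / GG (S1 δ θ X) * (f * ((5 / 32) * Real.log X))) := by ring
    have h4 : (32 / 5) * κ * (VV δ X / GG (S1 δ θ X) * (f * ((5 / 32) * Real.log X))) ≤
        (32 / 5) * κ * 1 := mul_le_mul_of_nonneg_left h2 (by positivity)
    linarith
  obtain ⟨hone, hcross⟩ := hX1 X (by omega) b0 D (fun _ => rfl) o S Ω Er hSX hΩ.le hEq
    (by rw [hθ]; exact hEs)
  have hBc2 : ∀ i, ((B i).card : ℝ) ≤ 2 * κ * (Real.log X * f) := by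
    intro i
    refine (hBc i).trans ?_
    have : 0 ≤ κ * (Real.log X * f) := by positivity
    linarith
  have hoi : ∀ i, ∀ a ∈ o, 1 ≤ a ∧ (a : ℝ) ≤ Λ * Real.log X ∧ a ∉ B i := fun i a ha =>
    ⟨(ho a ha).1, (ho a ha).2.1, (ho a ha).2.2 i⟩
  have hcob := Pool.Agent.H872R2.PPCol.cob t β (fun τ => (hβ τ).le) hβ1
  have hcoef : ∀ σ : Fin t → Option ℕ, |coef β σ| ≤ 1 := by
    intro σ
    obtain ⟨-, h1, h2⟩ := hcob.1 σ
    rw [abs_of_nonneg h1]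
    exact h2
  have hblk := fun i => block (κ' := 7 * κ) (η := η) (β := β) D (fun _ => rfl)
    (fun τ => (hβ τ).le) hβ1 hG0 (fun τ => rfl)
    hη0.le hV0.le hX1' hθ1 hΩ.le hs0.le hJ hw3 (S := S) (hη1 i)
    (hone (B i) (hB i) (hBc2 i) (hoi i) (fun _ => 1) (by intro σ; simp)).1
    (hone (B i) (hB i) (hBc2 i) (hoi i) (coef β) hcoef).2.1 (hκ' i)
  have hloss : s + 7 * κ * η + 7 * κ * s ≤ ε / 4 := by
    have h1 : 7 * κ * η = 7 * ε / 64 := by
      rw [hη]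
      field_simp
    have h2 : s + 7 * κ * s ≤ ε / 8 := by
      have h3 : (8 * (κ + 1)) * s = ε / 8 := by
        rw [hs]
        field_simp
        norm_num
      nlinarith
    rw [h1]
    linarith
  have hcs := cs_blocks S (k + 1) (fun i n => WW (B i) (fun _ => 1) (xx D n))
    (fun i n => ∀ a ∈ B i, ¬ Rf X (n + a)) (fun i => ZZ D (B i) (fun _ => 1)) Ω (ε / 4) s C hΩ
    (fun i => (hblk i).1) hs0.le (by linarith) hC.le (Nat.succ_pos _)
    (by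
      intro i
      have h' : Ω * ((1 - ε / 4) * ZZ D (B i) (fun _ => 1)) ≤
          Ω * ((1 - (s + 7 * κ * η + 7 * κ * s)) * ZZ D (B i) (fun _ => 1)) := by
        apply mul_le_mul_of_nonneg_left _ hΩ.le
        apply mul_le_mul_of_nonneg_right _ (by linarith [(hblk i).1])
        linarith
      refine (h'.trans (hblk i).2).trans (le_of_eq ?_)
      apply Finset.sum_congr _ (fun _ _ => rfl)
      ext n
      simp only [Finset.mem_filter])
    (by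
      intro i j hij
      have hc := hcross (B i) (B j) (hBd i j hij) (union_subset (hB i) (hB j))
        (by
          have h1 : ((B i ∪ B j).card : ℝ) ≤ ((B i).card : ℝ) + (B j).card := by
            exact_mod_cast card_union_le (B i) (B j)
          have h2 := hBc i
          have h3 := hBc j
          linarith)
        (fun a ha => ⟨(ho a ha).1, (ho a ha).2.1, by
          rw [mem_union, not_or]
          exact ⟨(ho a ha).2.2 i, (ho a ha).2.2 j⟩⟩)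
      have := (abs_le.1 hc).2
      linarith)
    (by
      intro i
      exact (hone (B i) (hB i) (hBc2 i) (hoi i) (fun _ => 1) (by intro σ; simp)).2.2)
  refine le_trans ?_ (hcs.trans (le_of_eq ?_))
  swap
  · congr 2
    ext n
    simp only [Finset.mem_filter]
  apply mul_le_mul_of_nonneg_right _ hΩ.le
  apply eps_ineq hε hε1 hs0.le hs1 (by positivity)
  rw [div_le_iff₀ (by positivity)]
  rw [div_le_iff₀ hε] at hk
  push_cast
  nlinarith

end Pool.Agent.R526.AA
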