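import Pool.Agent.R526.AA.Smg
import Pool.Agent.H361R2.PP.Main3

/-!
One block of positions: most of the second moment of the weight lives on the integers for which the
block contains no rough position.
-/

set_option autoImplicit false

open Finset

namespace Pool.Agent.R526.AA

open Pool.Agent.H361R2.PP
open Pool.Agent.H410R2.AC (wt GG cfg term WW pos Inj coef)

/-- `m` has no prime factor in `(HH X, X]` -/
def Rf (X m : ℕ) : Prop := ∀ p : ℕ, p.Prime → HH X < p → p ≤ X → ¬ p ∣ m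

theorem rg_Rf {δ : ℝ} {X n a : ℕ} (hJ : 2 ^ 2 ^ JJ δ X ≤ X) (h : Rf X (n + a)) :
    rg (P1 (HH X) (JJ δ X)) a n = 1 := by
  unfold rg
  rw [if_pos]
  intro p hp
  rw [mem_P1] at hp
  exact h p hp.2.1 hp.2.2 (by omega)

theorem FS_Rf {δ : ℝ} {X n a : ℕ} {S : Finset (Finset ℕ)} (hw3 : HH X < 2 ^ 2 ^ JJ δ X)
    (hS : ∀ R ∈ S, R ⊆ P2 (JJ δ X) X) (h : Rf X (n + a)) : FS S a n = GG S := by
  unfold FS GG
  refine sum_congr rfl fun R hR => ?_
  rw [prod_eq_one, mul_one]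
  intro p hpR
  rw [if_neg]
  have hp := mem_P2.1 (hS R hR hpR)
  exact h p hp.2.1 (lt_of_lt_of_le hw3 hp.2.2) hp.1

open Classical in
/-- one block -/
theorem block {t : ℕ} {u β : Fin t → ℝ} {δ θ s η κ' Ω : ℝ} {X : ℕ} (D : Dat t u 1 δ X)
    (hcf : ∀ a, D.cf a = -1) (hβ0 : ∀ τ, 0 ≤ β τ) (hβ1 : ∑ τ, β τ = 1)
    (hG : ∀ τ, 0 < GG (D.S τ)) (hg : ∀ τ, D.g τ = β τ / GG (D.S τ)) (hη : 0 ≤ η)
    (hV0 : 0 ≤ VV δ X) (hX : 1 ≤ X) (hθ : θ ≤ 1 / 32) (hΩ : 0 ≤ Ω) (hs : 0 ≤ s)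
    (hJ : 2 ^ 2 ^ JJ δ X ≤ X) (hw3 : HH X < 2 ^ 2 ^ JJ δ X) {B S : Finset ℕ}
    (hq : ∀ τ, ∑ a ∈ B, qq D τ a ≤ η)
    (h2 : |∑ n ∈ S, WW B (fun _ => 1) (xx D n) ^ 2 - Ω * ZZ D B (fun _ => 1)| ≤ s * Ω)
    (h3 : ∀ a ∈ B, |∑ n ∈ S, (spec δ θ X a n * WW (B.erase a) (coef β) (xx D n)) ^ 2 -
      Ω * (VV δ X * GG (S1 δ θ X) * ZZ D (B.erase a) (coef β))| ≤ s * (Ω * VV δ X))
    (hB : (B.card : ℝ) * (VV δ X / GG (S1 δ θ X)) ≤ κ') :
    1 ≤ ZZ D B (fun _ => 1) ∧
    Ω * ((1 - (s + κ' * η + κ' * s)) * ZZ D B (fun _ => 1)) ≤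
      ∑ n ∈ S.filter (fun n => ∀ a ∈ B, ¬ Rf X (n + a)), WW B (fun _ => 1) (xx D n) ^ 2 := by
  have hqn : ∀ τ a, 0 ≤ qq D τ a := fun τ a => qq_nonneg hV0 τ a
  obtain ⟨hm1, -, hm3⟩ := Pool.Agent.H433R2.PPMni.mni t B β (qq D) η hη hβ0 hβ1 hqn hq
  have hZe : ∀ B' : Finset ℕ, ZZ D B' (fun _ => 1) = ∑ σ ∈ cfg t B', term (qq D) σ :=
    fun B' => ZZ_one B'
  set Z := ZZ D B (fun _ => 1) with hZ
  have hZ1 : 1 ≤ Z := by rw [hZ, hZe]; exact hm1
  refine ⟨hZ1, ?_⟩
  have hG1 : 1 ≤ GG (S1 δ θ X) := GG1_ge hX hθ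
  set G1 := GG (S1 δ θ X) with hG1d
  have hG10 : 0 < G1 := by linarith
  have hcob := Pool.Agent.H872R2.PPCol.cob t β hβ0 hβ1
  have hcol := fun n => (Pool.Agent.H872R2.PPCol.col t B β (xx D n) (fun _ => -1)).1
  -- one rough position
  have key : ∀ a ∈ B, ∑ n ∈ S.filter (fun n => Rf X (n + a)), WW B (fun _ => 1) (xx D n) ^ 2 ≤
      Ω * ((VV δ X / G1) * (η * Z + s)) := by
    intro a ha
    have e1 : ∑ n ∈ S.filter (fun n => Rf X (n + a)), WW B (fun _ => 1) (xx D n) ^ 2 ≤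
        (∑ n ∈ S, (spec δ θ X a n * WW (B.erase a) (coef β) (xx D n)) ^ 2) / G1 ^ 2 := by
      rw [Finset.sum_div, Finset.sum_filter]
      refine Finset.sum_le_sum fun n _ => ?_
      split_ifs with hr
      · have hx : ∀ τ, xx D n τ a = (-1) * β τ := by
          intro τ
          unfold xx
          rw [rg_Rf hJ hr, FS_Rf hw3 (fun R hR => (D.hS τ R hR).1) hr, hcf a, hg τ]
          have := (hG τ).ne'
          field_simp
        have hW := hcol n a ha hx
        have hco : (co1 (-1) β : (Fin t → Option ℕ) → ℝ) = coef β := by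
          funext σ
          exact (hcob.1 σ).1
        rw [hco] at hW
        rw [hW]
        have hsp : spec δ θ X a n = G1 := by
          unfold spec
          rw [rg_Rf hJ hr, FS_Rf hw3 (fun R hR => S1_sub R hR) hr, one_mul]
        rw [hsp, mul_pow, mul_div_cancel_left₀ _ (pow_pos hG10 2).ne']
      · positivity
    refine e1.trans ?_
    have e2 := (abs_le.1 (h3 a ha)).2
    have e3 : ZZ D (B.erase a) (coef β) ≤ η * Z := by
      rw [hZ, hZe]
      exact (hm3 (B.erase a) (Finset.erase_subset _ _)).2.1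
    rw [div_le_iff₀ (by positivity)]
    have e4 : Ω * (VV δ X * G1 * ZZ D (B.erase a) (coef β)) ≤ Ω * (VV δ X * G1 * (η * Z)) := by
      gcongr
    have e5 : s * (Ω * VV δ X) ≤ Ω * (VV δ X * G1 * s) := by
      have : s * (Ω * VV δ X) * 1 ≤ s * (Ω * VV δ X) * G1 := by gcongr
      linarith
    calc ∑ n ∈ S, (spec δ θ X a n * WW (B.erase a) (coef β) (xx D n)) ^ 2 ≤
        Ω * (VV δ X * G1 * (η * Z)) + Ω * (VV δ X * G1 * s) := by linarith
      _ = Ω * (VV δ X / G1 * (η * Z + s)) * G1 ^ 2 := by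
          field_simp
  have hbad : ∑ n ∈ S.filter (fun n => ¬ ∀ a ∈ B, ¬ Rf X (n + a)),
      WW B (fun _ => 1) (xx D n) ^ 2 ≤ Ω * (κ' * (η * Z + s)) := by
    have e1 : ∑ n ∈ S.filter (fun n => ¬ ∀ a ∈ B, ¬ Rf X (n + a)),
        WW B (fun _ => 1) (xx D n) ^ 2 ≤
        ∑ a ∈ B, ∑ n ∈ S.filter (fun n => Rf X (n + a)), WW B (fun _ => 1) (xx D n) ^ 2 := by
      have e2 : ∑ a ∈ B, ∑ n ∈ S.filter (fun n => Rf X (n + a)),
          WW B (fun _ => 1) (xx D n) ^ 2 =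
          ∑ n ∈ S, ∑ a ∈ B, if Rf X (n + a) then WW B (fun _ => 1) (xx D n) ^ 2 else 0 := by
        rw [Finset.sum_comm]
        refine Finset.sum_congr rfl fun a _ => ?_
        rw [Finset.sum_filter]
      rw [e2, Finset.sum_filter]
      refine Finset.sum_le_sum fun n _ => ?_
      by_cases h : ∀ a ∈ B, ¬ Rf X (n + a)
      · rw [if_neg (not_not.2 h)]
        refine Finset.sum_nonneg fun i _ => ?_
        split_ifs
        · positivity
        · exact le_rfl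
      · rw [if_pos h]
        push Not at h
        obtain ⟨a, ha, hr⟩ := h
        refine le_trans ?_ (Finset.single_le_sum (f := fun a =>
          if Rf X (n + a) then WW B (fun _ => 1) (xx D n) ^ 2 else 0) (fun i _ => ?_) ha)
        · simp only [hr, if_true, le_refl]
        · split_ifs
          · positivity
          · exact le_rfl
    refine e1.trans ?_
    calc ∑ a ∈ B, ∑ n ∈ S.filter (fun n => Rf X (n + a)), WW B (fun _ => 1) (xx D n) ^ 2 ≤
        ∑ a ∈ B, Ω * ((VV δ X / G1) * (η * Z + s)) := Finset.sum_le_sum key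
      _ = Ω * (((B.card : ℝ) * (VV δ X / G1)) * (η * Z + s)) := by
          rw [Finset.sum_const, nsmul_eq_mul]; ring
      _ ≤ Ω * (κ' * (η * Z + s)) := by
          have : 0 ≤ η * Z + s := by positivity
          gcongr
  have hsplit := Finset.sum_filter_add_sum_filter_not S (fun n => ∀ a ∈ B, ¬ Rf X (n + a))
    (fun n => WW B (fun _ => 1) (xx D n) ^ 2)
  have e6 := (abs_le.1 h2).1
  have hκ' : 0 ≤ κ' := le_trans (by positivity) hB
  have e7 : s * Ω ≤ Ω * (s * Z) := by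
    have : s * Ω * 1 ≤ s * Ω * Z := by gcongr
    linarith
  have e8 : Ω * (κ' * (η * Z + s)) ≤ Ω * ((κ' * η + κ' * s) * Z) := by
    have : Ω * (κ' * s) * 1 ≤ Ω * (κ' * s) * Z := by gcongr
    linarith
  have e9 : Ω * ((1 - (s + κ' * η + κ' * s)) * Z) =
      Ω * Z - Ω * (s * Z) - Ω * ((κ' * η + κ' * s) * Z) := by ring
  rw [e9]
  linarith

/-- Cauchy-Schwarz over the blocks -/
theorem cs_blocks (S : Finset ℕ) (k : ℕ) (V : Fin k → ℕ → ℝ) (G : Fin k → ℕ → Prop)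
    (Z : Fin k → ℝ) (Ω η s C : ℝ) (hΩ : 0 < Ω) (hZ : ∀ i, 1 ≤ Z i) (hs : 0 ≤ s) (hη1 : η ≤ 1)
    (hC : 0 ≤ C) (hk : 0 < k)
    (h1 : ∀ i, Ω * ((1 - η) * Z i) ≤ ∑ n ∈ (by classical exact S.filter (G i)), V i n ^ 2)
    (h2 : ∀ i j, i ≠ j → ∑ n ∈ S, (V i n * V j n) ^ 2 ≤ Ω * (Z i * Z j + s))
    (h4 : ∀ i, ∑ n ∈ S, V i n ^ 4 ≤ C * Ω) :
    (1 - η) ^ 2 / (1 + s + C / k) * Ω ≤
      ((by classical exact S.filter (fun n => ∃ i, G i n) : Finset ℕ).card : ℝ) := by
  classical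
  have hk0 : (0 : ℝ) < k := by exact_mod_cast hk
  set T : ℝ := ∑ i, Z i with hT
  have hTk : (k : ℝ) ≤ T := by
    calc (k : ℝ) = ∑ _i : Fin k, (1 : ℝ) := by simp
      _ ≤ T := Finset.sum_le_sum fun i _ => hZ i
  have hT0 : 0 < T := by linarith
  set F : ℕ → ℝ := fun n => ∑ i, if G i n then V i n ^ 2 else 0 with hF
  set E := S.filter (fun n => ∃ i, G i n) with hE
  have hA : Ω * ((1 - η) * T) ≤ ∑ n ∈ E, F n := by
    have e1 : ∑ n ∈ E, F n = ∑ n ∈ S, F n := by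
      apply Finset.sum_subset (Finset.filter_subset _ _)
      intro n hn hne
      rw [Finset.mem_filter, not_and] at hne
      have := hne hn
      push Not at this
      apply Finset.sum_eq_zero
      intro i _
      rw [if_neg (this i)]
    rw [e1, hF, Finset.sum_comm, hT, Finset.mul_sum, Finset.mul_sum]
    refine Finset.sum_le_sum fun i _ => ?_
    have := h1 i
    rw [← Finset.sum_filter]
    exact this
  have hQ : ∑ n ∈ E, F n ^ 2 ≤ Ω * T ^ 2 * (1 + s + C / k) := by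
    have e1 : ∑ n ∈ E, F n ^ 2 ≤ ∑ n ∈ S, (∑ i, V i n ^ 2) ^ 2 := by
      refine le_trans (Finset.sum_le_sum fun n _ => ?_)
        (Finset.sum_le_sum_of_subset_of_nonneg (Finset.filter_subset _ _)
          (fun n _ _ => by positivity))
      apply pow_le_pow_left₀
      · apply Finset.sum_nonneg
        intro i _
        split_ifs
        · positivity
        · exact le_rfl
      · refine Finset.sum_le_sum fun i _ => ?_
        split_ifs
        · exact le_rfl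
        · positivity
    have e2 : ∑ n ∈ S, (∑ i, V i n ^ 2) ^ 2 = ∑ i, ∑ j, ∑ n ∈ S, (V i n * V j n) ^ 2 := by
      have : ∀ n ∈ S, (∑ i, V i n ^ 2) ^ 2 = ∑ i, ∑ j, (V i n * V j n) ^ 2 := by
        intro n _
        rw [sq, Finset.sum_mul_sum]
        refine Finset.sum_congr rfl fun i _ => Finset.sum_congr rfl fun j _ => ?_
        ring
      rw [Finset.sum_congr rfl this, Finset.sum_comm]
      refine Finset.sum_congr rfl fun i _ => ?_
      rw [Finset.sum_comm]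
    have e3 : ∀ i j : Fin k, ∑ n ∈ S, (V i n * V j n) ^ 2 ≤
        Ω * (Z i * Z j + s) + (if i = j then C * Ω else 0) := by
      intro i j
      by_cases hij : i = j
      · subst hij
        rw [if_pos rfl]
        have e4 : ∑ n ∈ S, (V i n * V i n) ^ 2 = ∑ n ∈ S, V i n ^ 4 :=
          Finset.sum_congr rfl fun n _ => by ring
        rw [e4]
        have := h4 i
        have h5 := hZ i
        have : 0 ≤ Ω * (Z i * Z i + s) := by
          have : 0 ≤ Z i := by linarith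
          positivity
        linarith
      · rw [if_neg hij, add_zero]
        exact h2 i j hij
    have e5 : ∑ i : Fin k, ∑ j : Fin k, (Ω * (Z i * Z j + s) + (if i = j then C * Ω else 0)) =
        Ω * (T * T) + Ω * s * (k * k) + k * (C * Ω) := by
      simp only [Finset.sum_add_distrib, mul_add, Finset.sum_const, Finset.card_univ,
        Fintype.card_fin, nsmul_eq_mul, Finset.sum_ite_eq, Finset.mem_univ, if_true]
      rw [hT, Finset.sum_mul_sum, Finset.mul_sum]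
      simp only [Finset.mul_sum]
      ring
    have e6 : Ω * s * (k * k) ≤ Ω * s * (T * T) := by gcongr
    have e7 : (k : ℝ) * (C * Ω) ≤ Ω * T ^ 2 * (C / k) := by
      have : (k : ℝ) * (C * Ω) = Ω * (C / k) * (k * k) := by field_simp
      rw [this]
      calc Ω * (C / k) * (k * k) ≤ Ω * (C / k) * (T * T) := by gcongr
        _ = _ := by ring
    calc ∑ n ∈ E, F n ^ 2 ≤ ∑ i, ∑ j, ∑ n ∈ S, (V i n * V j n) ^ 2 := by rw [← e2]; exact e1
      _ ≤ ∑ i : Fin k, ∑ j : Fin k, (Ω * (Z i * Z j + s) + (if i = j then C * Ω else 0)) :=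
          Finset.sum_le_sum fun i _ => Finset.sum_le_sum fun j _ => e3 i j
      _ = Ω * (T * T) + Ω * s * (k * k) + k * (C * Ω) := e5
      _ ≤ Ω * T ^ 2 * (1 + s + C / k) := by
          have : Ω * T ^ 2 * (1 + s + C / k) = Ω * (T * T) + Ω * s * (T * T) +
            Ω * T ^ 2 * (C / k) := by ring
          rw [this]
          linarith
  have hcs : (∑ n ∈ E, F n) ^ 2 ≤ (E.card : ℝ) * ∑ n ∈ E, F n ^ 2 :=
    sq_sum_le_card_mul_sum_sq
  have hA2 : (Ω * ((1 - η) * T)) ^ 2 ≤ (∑ n ∈ E, F n) ^ 2 := by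
    apply pow_le_pow_left₀ _ hA
    have : 0 ≤ 1 - η := by linarith
    positivity
  have hden : 0 < 1 + s + C / k := by positivity
  have h9 : (Ω * ((1 - η) * T)) ^ 2 ≤ (E.card : ℝ) * (Ω * T ^ 2 * (1 + s + C / k)) :=
    (hA2.trans hcs).trans (mul_le_mul_of_nonneg_left hQ (Nat.cast_nonneg _))
  rw [div_mul_eq_mul_div, div_le_iff₀ hden]
  have h10 : 0 < Ω * T ^ 2 := by positivity
  have h11 : (1 - η) ^ 2 * Ω * (Ω * T ^ 2) ≤ ((E.card : ℝ) * (1 + s + C / k)) * (Ω * T ^ 2) := by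
    calc (1 - η) ^ 2 * Ω * (Ω * T ^ 2) = (Ω * ((1 - η) * T)) ^ 2 := by ring
      _ ≤ (E.card : ℝ) * (Ω * T ^ 2 * (1 + s + C / k)) := h9
      _ = _ := by ring
  exact le_of_mul_le_mul_right h11 h10

end Pool.Agent.R526.AA
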