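import Pool.Agent.R526.AA.Int

/-!
Blocks of integers with a small prime factor, after almost all primes; pairs.
-/

set_option autoImplicit false

open Finset

namespace Pool.Agent.R526.AA

open Pool.Agent.H361R2.PP
open Pool.Agent.H410R2.AC (wt GG cfg term WW pos Inj coef)

theorem cfg_zero (B : Finset ℕ) : cfg 0 B = {Fin.elim0} := by
  ext σ
  rw [mem_cfg, mem_singleton]
  constructor
  · intro _
    funext i
    exact i.elim0
  · rintro rfl
    exact ⟨fun τ => τ.elim0, fun τ => τ.elim0⟩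

open Classical in
/-- rough positions among a well distributed set of integers: upper bound on average -/
theorem pair_bound (κ Dx : ℝ) (hκ : 0 < κ) (hDx : 0 ≤ Dx) :
    ∃ Kq Aq : ℕ, ∀ Λ : ℝ, 0 < Λ → ∃ X₀ : ℕ, ∀ X : ℕ, X₀ ≤ X → ∀ b0 : ℕ,
    ∀ (o : Option ℕ) (S : Finset ℕ) (Ω : ℝ) (Er : Finset ℕ → ℝ),
      (∀ n ∈ S, (n : ℝ) + X ≤ (X : ℝ) ^ Dx) → 0 < Ω →
      Eqd o ((PX X).filter (fun p : ℕ => (p : ℝ) ≤ (X : ℝ) ^ (1 / 2 : ℝ))) S Ω Er →
      ∑ D ∈ (PX X).powerset.filter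
        (fun D : Finset ℕ => ∏ p ∈ D, (p : ℝ) ≤ (X : ℝ) ^ (1 / 2 - 1 / 32 : ℝ)),
        (Kq : ℝ) ^ D.card * Er D ≤ Ω / Real.log X ^ Aq →
      ∀ B : Finset ℕ, B ⊆ BB X b0 ⌊Λ * Real.log X⌋₊ →
        (B.card : ℝ) ≤ κ * (Real.log X * (Nat.totient (Wm X) / Wm X)) →
        (∀ a ∈ o, 1 ≤ a ∧ (a : ℝ) ≤ Λ * Real.log X ∧ a ∉ B) →
        ∑ a ∈ B, ((S.filter (fun n => Rf X (n + a))).card : ℝ) ≤ 14 * κ * Ω := by
  obtain ⟨θ, hθ⟩ : ∃ θ : ℝ, θ = 1 / 32 := ⟨_, rfl⟩
  have hθ0 : 0 < θ := by rw [hθ]; norm_num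
  have hθ1 : θ ≤ 1 / 32 := by rw [hθ]
  obtain ⟨CM, hCM1, hCM⟩ := Pool.Agent.H488R2.mer Pool.Agent.H325R2.wtx
  obtain ⟨Kq, Aq, δ, hδ0, hδ8, hsm⟩ := smg 0 (fun τ => τ.elim0) κ θ 1 Dx (fun τ => τ.elim0)
    (by simp; linarith) hθ0 hθ1 hκ one_pos hDx
  obtain ⟨C, hC, hsmX⟩ := hsm δ hδ0 le_rfl
  refine ⟨Kq, Aq, fun Λ hΛ => ?_⟩
  obtain ⟨X1, hX1⟩ := hsmX Λ hΛ
  obtain ⟨X3, hMX⟩ := hCM δ hδ0 (by linarith)
  obtain ⟨X7, hWX⟩ := Pool.Agent.H325R2.wtx.2 δ hδ0 (by linarith)
  obtain ⟨X8, hFX⟩ := log_floor (a := 1 / 4 - 2 * θ) (θ := θ) (by linarith) hθ0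
  refine ⟨X1 + X3 + X7 + X8 + 2, fun X hX b0 o S Ω Er hSX hΩ hEq hEs B hB hBc ho => ?_⟩
  have hX2 : 2 ≤ X := by omega
  have hX1' : 1 ≤ X := by omega
  have hL : 0 < Real.log X := Real.log_pos (by exact_mod_cast hX2)
  obtain ⟨hw1, -, hw3⟩ := hWX X (by omega)
  have hJ : 2 ^ 2 ^ JJ δ X ≤ X := by
    have h1 : (X : ℝ) ^ δ ≤ (X : ℝ) ^ (1 : ℝ) :=
      Real.rpow_le_rpow_of_exponent_le (by exact_mod_cast hX1') (by linarith)
    rw [Real.rpow_one] at h1
    exact_mod_cast hw1.trans h1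
  obtain ⟨hV0, hM1, hM2⟩ := hMX X (by omega)
  obtain ⟨hF1, hF2⟩ := hFX X (by omega)
  let D : Dat 0 (fun τ => τ.elim0) 1 δ X :=
    { S := fun τ => τ.elim0
      g := fun τ => τ.elim0
      cf := fun _ => -1
      hS := fun τ => τ.elim0
      h0 := fun τ => τ.elim0
      hd := fun τ => τ.elim0
      hg := fun τ => τ.elim0
      hc := by
        intro a
        rw [abs_neg, abs_one] }
  obtain ⟨hone, -⟩ := hX1 X (by omega) b0 D (fun _ => rfl) o S Ω Er hSX hΩ.le hEq
    (by rw [hθ]; exact hEs)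
  have h1 := (hone B hB hBc ho (fun _ => 1) (by intro σ; simp)).2.1
  have hWW : ∀ (B' : Finset ℕ) (n : ℕ), WW B' (fun _ => 1) (xx D n) = 1 := by
    intro B' n
    unfold WW
    rw [cfg_zero, sum_singleton]
    simp [term]
  have hZZ : ∀ B' : Finset ℕ, ZZ D B' (fun _ => 1) = 1 := by
    intro B'
    unfold ZZ
    rw [cfg_zero, sum_singleton]
    simp [term]
  simp only [hWW, hZZ, mul_one] at h1
  set f : ℝ := (Nat.totient (Wm X) : ℝ) / Wm X with hf
  have hf0 : 0 ≤ f := by rw [hf]; positivity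
  have hVG := VG_le (δ := δ) Pool.Agent.H633R2.ggSharp hθ0 hθ1 hX1' hM2 hV0 hF1 hF2
  have hG1 : 1 ≤ GG (S1 δ θ X) := GG1_ge hX1' hθ1
  set G1 := GG (S1 δ θ X) with hG1d
  have hG10 : 0 < G1 := by linarith
  have hκ' : (B.card : ℝ) * (VV δ X / G1) ≤ 7 * κ := by
    have h1 : (B.card : ℝ) * (VV δ X / G1) ≤ κ * (Real.log X * f) * (VV δ X / G1) :=
      mul_le_mul_of_nonneg_right hBc (by positivity)
    have h2 : VV δ X / G1 * (f * ((5 / 32) * Real.log X)) ≤ 1 := by
      have h5 : (5 / 32 : ℝ) = 1 / 4 - 3 * θ := by rw [hθ]; norm_num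
      rw [h5]
      exact hVG
    have h3 : κ * (Real.log X * f) * (VV δ X / G1) =
        (32 / 5) * κ * (VV δ X / G1 * (f * ((5 / 32) * Real.log X))) := by ring
    have h4 : (32 / 5) * κ * (VV δ X / G1 * (f * ((5 / 32) * Real.log X))) ≤
        (32 / 5) * κ * 1 := mul_le_mul_of_nonneg_left h2 (by positivity)
    linarith
  have key : ∀ a ∈ B, ((S.filter (fun n => Rf X (n + a))).card : ℝ) ≤ 2 * Ω * (VV δ X / G1) := by
    intro a ha
    have e1 : ((S.filter (fun n => Rf X (n + a))).card : ℝ) * G1 ^ 2 ≤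
        ∑ n ∈ S, spec δ θ X a n ^ 2 := by
      rw [← nsmul_eq_mul, ← sum_const, sum_filter]
      refine sum_le_sum fun n _ => ?_
      split_ifs with hr
      · have hsp : spec δ θ X a n = G1 := by
          unfold spec
          rw [rg_Rf hJ hr, FS_Rf hw3 (fun R hR => S1_sub R hR) hr, one_mul]
        rw [hsp]
      · positivity
    have e2 := (abs_le.1 (h1 a ha)).2
    have e3 : ∑ n ∈ S, spec δ θ X a n ^ 2 ≤ Ω * VV δ X * (2 * G1) := by
      have : Ω * VV δ X * 1 ≤ Ω * VV δ X * G1 := by gcongr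
      linarith
    have e4 : ((S.filter (fun n => Rf X (n + a))).card : ℝ) * G1 ^ 2 ≤
        (2 * Ω * (VV δ X / G1)) * G1 ^ 2 := by
      refine (e1.trans e3).trans (le_of_eq ?_)
      field_simp
    exact le_of_mul_le_mul_right e4 (by positivity)
  calc ∑ a ∈ B, ((S.filter (fun n => Rf X (n + a))).card : ℝ) ≤
      ∑ a ∈ B, 2 * Ω * (VV δ X / G1) := sum_le_sum key
    _ = 2 * Ω * ((B.card : ℝ) * (VV δ X / G1)) := by
        rw [sum_const, nsmul_eq_mul]; ring
    _ ≤ 2 * Ω * (7 * κ) := by gcongr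
    _ = 14 * κ * Ω := by ring

/-- the admissible classes -/
theorem card_adm (X : ℕ) : ((range (Wm X)).filter (fun b => (b + 1).Coprime (Wm X))).card =
    Nat.totient (Wm X) := by
  rw [← Nat.filter_coprime_Ico_eq_totient (Wm X) 1]
  apply card_bij (fun b _ => b + 1)
  · intro b hb
    rw [mem_filter, mem_range] at hb
    rw [mem_filter, mem_Ico]
    exact ⟨⟨by omega, by omega⟩, hb.2.symm⟩
  · intro a _ b _ h
    omega
  · intro b hb
    rw [mem_filter, mem_Ico] at hb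
    refine ⟨b - 1, ?_, by omega⟩
    rw [mem_filter, mem_range]
    have : b - 1 + 1 = b := by omega
    rw [this]
    exact ⟨by omega, hb.2.symm⟩

/-- the integers `n` with `n + 1` a prime -/
noncomputable def SQ (X : ℕ) : Finset ℕ := (Ico X (2 * X)).filter (fun n => (n + 1).Prime)

theorem SQ_card {X : ℕ} (hX : 2 ≤ X) : ((SQ X).card : ℝ) ≤ Pr X := by
  unfold SQ Pr
  apply Nat.cast_le.2
  apply card_le_card_of_injOn (fun n => n + 1)
  · intro n hn
    rw [mem_coe, mem_filter, mem_Ico] at hn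
    change n + 1 ∈ _
    rw [mem_coe, mem_filter, mem_Ico]
    refine ⟨⟨by omega, ?_⟩, hn.2⟩
    rcases Nat.lt_or_ge (n + 1) (2 * X) with h | h
    · exact h
    · exfalso
      have h1 : n + 1 = 2 * X := by omega
      have h2 := hn.2
      rw [h1] at h2
      exact Nat.not_prime_mul (by norm_num) (by omega) h2
  · intro a _ b _ h
    simp only at h
    omega

/-- classes of primes -/
theorem SQ_classes {X : ℕ} (hHX : HH X < X) (Q : ℕ → Prop) [DecidablePred Q] :
    ((SQ X).filter Q).card = ∑ b ∈ (range (Wm X)).filter (fun b => (b + 1).Coprime (Wm X)),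
      ((SP X b 1).filter Q).card := by
  have hW := Wm_pos X
  rw [card_eq_sum_card_fiberwise (f := fun n => n % Wm X)
    (t := (range (Wm X)).filter (fun b => (b + 1).Coprime (Wm X)))]
  · refine sum_congr rfl fun b _ => ?_
    congr 1
    ext n
    unfold SQ
    simp only [mem_filter, mem_SP, mem_Ico]
    tauto
  · intro n hn
    rw [mem_coe] at hn
    unfold SQ at hn
    rw [mem_filter, mem_filter, mem_Ico] at hn
    have h1 : n ∈ SI X (n % Wm X) := by
      rw [mem_SI]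
      exact ⟨hn.1.1.1, hn.1.1.2, rfl⟩
    have h2 := prime_BB (N := 1) hHX h1 le_rfl le_rfl hn.1.2
    rw [mem_BB] at h2
    rw [mem_coe, mem_filter, mem_range]
    exact ⟨Nat.mod_lt _ hW, h2.2.2⟩

theorem HH_lt {X : ℕ} (hX : 16 ≤ X) : HH X < X := by
  have hX16 : (16 : ℝ) ≤ X := by exact_mod_cast hX
  have hXr : (0 : ℝ) < X := by linarith
  have hL : 0 < Real.log X := Real.log_pos (by linarith)
  have h1 : ((HH X : ℕ) : ℝ) < X := by
    have h2 : Real.log X ≤ X := (Real.log_le_sub_one_of_pos hXr).trans (by linarith)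
    have h3 : Real.log (Real.log X) ≤ Real.log X :=
      (Real.log_le_sub_one_of_pos hL).trans (by linarith)
    have h4 : (0 : ℝ) ≤ Real.log (Real.log X) / 4 := by
      apply div_nonneg _ (by norm_num)
      apply Real.log_nonneg
      rw [Real.le_log_iff_exp_le hXr]
      have := Real.exp_one_lt_d9
      linarith
    have h5 : ((HH X : ℕ) : ℝ) ≤ Real.log (Real.log X) / 4 := by
      unfold HH
      exact Nat.floor_le h4
    linarith
  exact_mod_cast h1

theorem Pr_pos {X : ℕ} (h : ((SQ X).card : ℝ) ≤ Pr X) (h0 : 0 < (SQ X).card) : 0 < Pr X :=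
  lt_of_lt_of_le (by exact_mod_cast h0) h

open Classical in
/-- for almost all primes `p` in `(X, 2X]` one of the first `k` blocks after `p` consists of
integers with a prime factor at most `X` -/
theorem basic_prime (μ ε : ℝ) (hμ : 0 < μ) (hε : 0 < ε) (hε1 : ε ≤ 1) :
    ∃ k : ℕ, 0 < k ∧ ∃ X₀ : ℕ, ∀ X : ℕ, X₀ ≤ X → ∀ l : ℕ, (l : ℝ) ≤ μ * Real.log X →
      (((SQ X).filter (fun n => ¬ ∃ i < k, Fre X l (n + 1) i)).card : ℝ) ≤ ε * Pr X := by
  obtain ⟨Kq, Aq, k, hk, hA⟩ := almost (2 * μ) ε 4 (by linarith) hε hε1 (by norm_num)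
  have hΛ : 0 < (k : ℝ) * μ + μ + 1 := by positivity
  obtain ⟨X1, hX1⟩ := hA (k * μ + μ + 1) hΛ
  obtain ⟨X2, hX2⟩ := Pool.Agent.H96R2.EQP.eqPrime Kq Aq (1 / 32) (k * μ + μ + 1) (by norm_num) hΛ
  obtain ⟨X3, hX3⟩ := Bk_card μ hμ (k * μ + μ + 1) hΛ
  obtain ⟨X4, hX4⟩ := Pool.Agent.H325R2.pnt (1 / 2) (by norm_num)
  refine ⟨k, hk, X1 + X2 + X3 + X4 + 16, fun X hX l hl => ?_⟩
  have hW := Wm_pos X
  have hWr : (0 : ℝ) < Wm X := by exact_mod_cast hW
  have hφ : (0 : ℝ) < Nat.totient (Wm X) := by exact_mod_cast Nat.totient_pos.2 hW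
  have hX16 : (16 : ℝ) ≤ X := by exact_mod_cast (by omega : 16 ≤ X)
  have hXr : (0 : ℝ) < X := by linarith
  have hL : 1 ≤ Real.log X := by
    rw [Real.le_log_iff_exp_le hXr]
    have := Real.exp_one_lt_d9
    linarith
  have hHX : HH X < X := HH_lt (by omega)
  have hPr : 0 < Pr X := by
    have h1 := (abs_le.1 (hX4 X (by omega))).1
    by_contra h
    push Not at h
    nlinarith
  -- one class
  have hcls : ∀ b ∈ (range (Wm X)).filter (fun b => (b + 1).Coprime (Wm X)),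
      (1 - ε) * (Pr X / Nat.totient (Wm X)) ≤
      (((SP X b 1).filter (fun n => ∃ i < k, Fre X l (n + 1) i)).card : ℝ) := by
    intro b hb
    rw [mem_filter, mem_range] at hb
    have h1BB : 1 ∈ BB X b ⌊((k : ℝ) * μ + μ + 1) * Real.log X⌋₊ := by
      rw [mem_BB]
      refine ⟨le_rfl, ?_, hb.2⟩
      apply Nat.le_floor
      push_cast
      have : 0 ≤ ((k : ℝ) * μ + μ) * Real.log X := by positivity
      linarith
    obtain ⟨Er, hEq, hEs⟩ := hX2 X (by omega) b hb.1 1 h1BB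
    have h1 := hX1 X (by omega) b (some 1) (SP X b 1)
      (Pr X / Nat.totient (Wm X)) Er (by
        intro n hn
        rw [mem_SP] at hn
        have h2 : (n : ℝ) < 2 * X := by exact_mod_cast hn.2.1
        have h3 : (X : ℝ) ^ (4 : ℝ) = (X : ℝ) ^ 4 := by
          rw [← Real.rpow_natCast]; norm_num
        rw [h3]
        have h4 : (16 : ℝ) * X ≤ X ^ 2 := by nlinarith
        have h5 : (X : ℝ) ^ 2 ≤ X ^ 4 := pow_le_pow_right₀ (by linarith) (by norm_num)
        linarith) (by positivity) hEq hEs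
      (fun i => Bk X b ⌊((k : ℝ) * μ + μ + 1) * Real.log X⌋₊ 1 l i)
      (fun i => Bk_sub _ _ _ _ _ _)
      (by
        intro i
        apply hX3 X (by omega) b 1 l i hl
        have h2 : ((i : ℕ) : ℝ) ≤ k := by exact_mod_cast i.2.le
        have h3 : ((i : ℕ) : ℝ) * l ≤ k * (μ * Real.log X) := by
          apply mul_le_mul h2 hl (by positivity) (by positivity)
        push_cast
        nlinarith)
      (fun i j hij => Bk_disj (fun h => hij (Fin.ext h)))
      (by
        intro a ha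
        rw [Option.mem_def, Option.some.injEq] at ha
        subst ha
        refine ⟨le_rfl, ?_, ?_⟩
        · push_cast
          have : 0 ≤ ((k : ℝ) * μ + μ) * Real.log X := by positivity
          linarith
        · intro i hi
          unfold Bk at hi
          rw [mem_filter] at hi
          omega)
    refine h1.trans ?_
    apply Nat.cast_le.2
    apply card_le_card
    intro n hn
    rw [mem_filter] at hn ⊢
    refine ⟨hn.1, ?_⟩
    obtain ⟨i, hi⟩ := hn.2
    refine ⟨i, i.2, ?_⟩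
    have hnb := (mem_SP.1 hn.1).2.2.1
    exact Fre_of (h := 1) (N := ⌊((k : ℝ) * μ + μ + 1) * Real.log X⌋₊) (l := l) (i := i) hHX.le (by
      apply Nat.le_floor
      push_cast
      have h2 : ((i : ℕ) : ℝ) + 1 ≤ k := by exact_mod_cast i.2
      have h3 : (((i : ℕ) : ℝ) + 1) * l ≤ k * (μ * Real.log X) := by
        apply mul_le_mul h2 hl (by positivity) (by positivity)
      have h4 : 0 ≤ μ * Real.log X := by positivity
      nlinarith) hnb hi
  -- sum over the classes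
  have hgood : (1 - ε) * Pr X ≤
      (((SQ X).filter (fun n => ∃ i < k, Fre X l (n + 1) i)).card : ℝ) := by
    rw [SQ_classes hHX]
    push_cast
    calc (1 - ε) * Pr X = ∑ b ∈ (range (Wm X)).filter (fun b => (b + 1).Coprime (Wm X)),
          (1 - ε) * (Pr X / Nat.totient (Wm X)) := by
          rw [sum_const, card_adm, nsmul_eq_mul]
          field_simp
      _ ≤ _ := sum_le_sum hcls
  have htot := card_filter_add_card_filter_not (s := SQ X) (fun n => ∃ i < k, Fre X l (n + 1) i)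
  have htot' : (((SQ X).filter (fun n => ∃ i < k, Fre X l (n + 1) i)).card : ℝ) +
      (((SQ X).filter (fun n => ¬ ∃ i < k, Fre X l (n + 1) i)).card : ℝ) = (SQ X).card := by
    exact_mod_cast htot
  have := SQ_card (X := X) (by omega)
  linarith

/-- number of primes among the integers `n + 1 + h`, `1 ≤ h ≤ H` -/
def Nx (H n : ℕ) : ℕ := ((Icc 1 H).filter (fun h => (n + 1 + h).Prime)).card

open Classical in
/-- for few primes `p` there are many primes within `μ log X` after `p` -/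
theorem few_clusters (μ ε : ℝ) (hμ : 0 < μ) (hε : 0 < ε) : ∃ J : ℕ, 0 < J ∧ ∃ X₀ : ℕ,
    ∀ X : ℕ, X₀ ≤ X → ∀ H : ℕ, (H : ℝ) ≤ μ * Real.log X →
      (((SQ X).filter (fun n => J ≤ Nx H n)).card : ℝ) ≤ ε * Pr X := by
  obtain ⟨Kq, Aq, hA⟩ := pair_bound (2 * μ) 4 (by linarith) (by norm_num)
  have hΛ : 0 < μ + 1 := by positivity
  obtain ⟨X1, hX1⟩ := hA (μ + 1) hΛ
  obtain ⟨X2, hX2⟩ := Pool.Agent.H96R2.EQP.eqPrime Kq Aq (1 / 32) (μ + 1) (by norm_num) hΛ
  obtain ⟨X3, hX3⟩ := Bk_card μ hμ (μ + 1) hΛ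
  obtain ⟨X4, hX4⟩ := Pool.Agent.H325R2.pnt (1 / 2) (by norm_num)
  obtain ⟨J, hJ⟩ := exists_nat_ge (28 * μ / ε)
  refine ⟨J + 1, Nat.succ_pos _, X1 + X2 + X3 + X4 + 16, fun X hX H hH => ?_⟩
  have hW := Wm_pos X
  have hWr : (0 : ℝ) < Wm X := by exact_mod_cast hW
  have hφ : (0 : ℝ) < Nat.totient (Wm X) := by exact_mod_cast Nat.totient_pos.2 hW
  have hX16 : (16 : ℝ) ≤ X := by exact_mod_cast (by omega : 16 ≤ X)
  have hXr : (0 : ℝ) < X := by linarith
  have hL : 1 ≤ Real.log X := by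
    rw [Real.le_log_iff_exp_le hXr]
    have := Real.exp_one_lt_d9
    linarith
  have hHX : HH X < X := HH_lt (by omega)
  have hPr : 0 < Pr X := by
    have h1 := (abs_le.1 (hX4 X (by omega))).1
    by_contra h
    push Not at h
    nlinarith
  have hcls : ∀ b ∈ (range (Wm X)).filter (fun b => (b + 1).Coprime (Wm X)),
      ∑ n ∈ SP X b 1, (Nx H n : ℝ) ≤ 28 * μ * (Pr X / Nat.totient (Wm X)) := by
    intro b hb
    rw [mem_filter, mem_range] at hb
    have h1BB : 1 ∈ BB X b ⌊(μ + 1) * Real.log X⌋₊ := by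
      rw [mem_BB]
      refine ⟨le_rfl, ?_, hb.2⟩
      apply Nat.le_floor
      push_cast
      have : 0 ≤ μ * Real.log X := by positivity
      linarith
    obtain ⟨Er, hEq, hEs⟩ := hX2 X (by omega) b hb.1 1 h1BB
    have h1 := hX1 X (by omega) b (some 1) (SP X b 1)
      (Pr X / Nat.totient (Wm X)) Er (by
        intro n hn
        rw [mem_SP] at hn
        have h2 : (n : ℝ) < 2 * X := by exact_mod_cast hn.2.1
        have h3 : (X : ℝ) ^ (4 : ℝ) = (X : ℝ) ^ 4 := by
          rw [← Real.rpow_natCast]; norm_num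
        rw [h3]
        have h4 : (16 : ℝ) * X ≤ X ^ 2 := by nlinarith
        have h5 : (X : ℝ) ^ 2 ≤ X ^ 4 := pow_le_pow_right₀ (by linarith) (by norm_num)
        linarith) (by positivity) hEq hEs
      (Bk X b ⌊(μ + 1) * Real.log X⌋₊ 1 H 0)
      (Bk_sub _ _ _ _ _ _)
      (by
        apply hX3 X (by omega) b 1 H 0 hH
        push_cast
        linarith)
      (by
        intro a ha
        rw [Option.mem_def, Option.some.injEq] at ha
        subst ha
        refine ⟨le_rfl, ?_, ?_⟩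
        · push_cast
          have : 0 ≤ μ * Real.log X := by positivity
          linarith
        · intro hi
          unfold Bk at hi
          rw [mem_filter] at hi
          omega)
    have h2 : 14 * (2 * μ) * (Pr X / Nat.totient (Wm X)) =
        28 * μ * (Pr X / Nat.totient (Wm X)) := by ring
    rw [← h2]
    refine le_trans ?_ h1
    have h3 : ∑ a ∈ Bk X b ⌊(μ + 1) * Real.log X⌋₊ 1 H 0,
        (((SP X b 1).filter (fun n => Rf X (n + a))).card : ℝ) =
        ∑ n ∈ SP X b 1, (((Bk X b ⌊(μ + 1) * Real.log X⌋₊ 1 H 0).filter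
          (fun a => Rf X (n + a))).card : ℝ) := by
      simp only [card_filter, Nat.cast_sum]
      rw [sum_comm]
    rw [h3]
    refine sum_le_sum fun n hn => ?_
    apply Nat.cast_le.2
    unfold Nx
    apply card_le_card_of_injOn (fun h => 1 + h)
    · intro h hh
      rw [mem_coe, mem_filter, mem_Icc] at hh
      change 1 + h ∈ _
      rw [mem_SP] at hn
      have hp : (n + (1 + h)).Prime := by
        have := hh.2
        rwa [Nat.add_assoc] at this
      have hN : 1 + h ≤ ⌊(μ + 1) * Real.log X⌋₊ := by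
        apply Nat.le_floor
        push_cast
        have h4 : (h : ℝ) ≤ H := by exact_mod_cast hh.1.2
        linarith
      have hBB := prime_BB (b := b) (N := ⌊(μ + 1) * Real.log X⌋₊) hHX
        (mem_SI.2 ⟨hn.1, hn.2.1, hn.2.2.1⟩) (by omega) hN hp
      rw [mem_coe, mem_filter]
      unfold Bk
      rw [mem_filter]
      refine ⟨⟨hBB, by omega, by omega⟩, ?_⟩
      intro p hp1 _ hpX hpd
      rcases (Nat.dvd_prime hp).1 hpd with h5 | h5
      · exact hp1.one_lt.ne' h5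
      · omega
    · intro a _ c _ h
      simp only at h
      omega
  have hsum : ∑ n ∈ SQ X, (Nx H n : ℝ) ≤ 28 * μ * Pr X := by
    have h1 : ∑ n ∈ SQ X, (Nx H n : ℝ) = ∑ b ∈ (range (Wm X)).filter
        (fun b => (b + 1).Coprime (Wm X)), ∑ n ∈ SP X b 1, (Nx H n : ℝ) := by
      rw [← sum_fiberwise_of_maps_to (s := SQ X) (g := fun n => n % Wm X)
        (t := (range (Wm X)).filter (fun b => (b + 1).Coprime (Wm X)))]
      · refine sum_congr rfl fun b _ => sum_congr ?_ (fun _ _ => rfl)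
        ext n
        unfold SQ
        simp only [mem_filter, mem_SP, mem_Ico]
        tauto
      · intro n hn
        unfold SQ at hn
        rw [mem_filter, mem_Ico] at hn
        have h1 : n ∈ SI X (n % Wm X) := by
          rw [mem_SI]
          exact ⟨hn.1.1, hn.1.2, rfl⟩
        have h2 := prime_BB (N := 1) hHX h1 le_rfl le_rfl hn.2
        rw [mem_BB] at h2
        rw [mem_filter, mem_range]
        exact ⟨Nat.mod_lt _ hW, h2.2.2⟩
    rw [h1]
    calc _ ≤ ∑ b ∈ (range (Wm X)).filter (fun b => (b + 1).Coprime (Wm X)),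
          28 * μ * (Pr X / Nat.totient (Wm X)) := sum_le_sum hcls
      _ = 28 * μ * Pr X := by
          rw [sum_const, card_adm, nsmul_eq_mul]
          field_simp
  have h5 : ((J + 1 : ℕ) : ℝ) * (((SQ X).filter (fun n => J + 1 ≤ Nx H n)).card : ℝ) ≤
      ∑ n ∈ SQ X, (Nx H n : ℝ) := by
    calc ((J + 1 : ℕ) : ℝ) * (((SQ X).filter (fun n => J + 1 ≤ Nx H n)).card : ℝ) =
        ∑ n ∈ (SQ X).filter (fun n => J + 1 ≤ Nx H n), ((J + 1 : ℕ) : ℝ) := by
          rw [sum_const, nsmul_eq_mul, mul_comm]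
      _ ≤ ∑ n ∈ (SQ X).filter (fun n => J + 1 ≤ Nx H n), (Nx H n : ℝ) := by
          refine sum_le_sum fun n hn => ?_
          exact_mod_cast (mem_filter.1 hn).2
      _ ≤ _ := sum_le_sum_of_subset_of_nonneg (filter_subset _ _)
          (fun _ _ _ => Nat.cast_nonneg _)
  rw [div_le_iff₀ hε] at hJ
  have h6 : (28 * μ) * Pr X ≤ ((J : ℝ) * ε) * Pr X := mul_le_mul_of_nonneg_right hJ hPr.le
  push_cast at h5
  have hJ0 : (0 : ℝ) ≤ J := Nat.cast_nonneg _
  have h7 : ((J : ℝ) + 1) * (((SQ X).filter (fun n => J + 1 ≤ Nx H n)).card : ℝ) ≤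
      ((J : ℝ) + 1) * (ε * Pr X) := by
    have h8 : 0 ≤ ε * Pr X := by positivity
    nlinarith
  exact le_of_mul_le_mul_left h7 (by positivity)

end Pool.Agent.R526.AA
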