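import Pool.Agent.R526.AA.Int

/-!
Short intervals: a positive proportion of the blocks near almost all the integers.
-/

set_option autoImplicit false

open Finset Filter Topology

namespace Pool.Agent.R526.AA

open Pool.Agent.H361R2.PP

theorem Fre_shift {X l n i s : ℕ} : Fre X l (n + s * l) i ↔ Fre X l n (s + i) := by
  unfold Fre
  have h1 : n + s * l + i * l = n + (s + i) * l := by ring
  have h2 : n + s * l + (i + 1) * l = n + (s + i + 1) * l := by ring
  rw [h1, h2]

/-- covering of an interval by intervals of length `X` -/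
theorem cover (Q : ℕ → Prop) [DecidablePred Q] (x y X : ℕ) (hX : 0 < X) (e : ℝ)
    (h : ∀ x' : ℕ, x ≤ x' → x' ≤ x + y → (((Ico x' (x' + X)).filter Q).card : ℝ) ≤ e) :
    (((Ico x (x + y)).filter Q).card : ℝ) ≤ ((y : ℝ) / X + 1) * e := by
  have h1 : (Ico x (x + y)).filter Q ⊆
      (range (y / X + 1)).biUnion (fun q => (Ico (x + q * X) (x + q * X + X)).filter Q) := by
    intro n hn
    rw [mem_filter, mem_Ico] at hn
    rw [mem_biUnion]
    refine ⟨(n - x) / X, ?_, ?_⟩
    · rw [mem_range]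
      have : (n - x) / X ≤ y / X := Nat.div_le_div_right (by omega)
      omega
    · rw [mem_filter, mem_Ico]
      have h2 := Nat.div_add_mod (n - x) X
      have h3 := Nat.mod_lt (n - x) hX
      rw [mul_comm] at h2
      refine ⟨⟨by omega, by omega⟩, hn.2⟩
  have he : 0 ≤ e := le_trans (Nat.cast_nonneg _) (h x le_rfl (by omega))
  calc (((Ico x (x + y)).filter Q).card : ℝ) ≤
      (((range (y / X + 1)).biUnion
        (fun q => (Ico (x + q * X) (x + q * X + X)).filter Q)).card : ℝ) := by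
        exact_mod_cast card_le_card h1
    _ ≤ ∑ q ∈ range (y / X + 1), (((Ico (x + q * X) (x + q * X + X)).filter Q).card : ℝ) := by
        exact_mod_cast card_biUnion_le
    _ ≤ ∑ q ∈ range (y / X + 1), e := by
        refine sum_le_sum fun q hq => ?_
        apply h
        · omega
        · rw [mem_range] at hq
          have : q * X ≤ y := by
            calc q * X ≤ (y / X) * X := Nat.mul_le_mul_right _ (by omega)
              _ ≤ y := Nat.div_mul_le_self _ _
          omega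
    _ = ((y / X : ℕ) + 1 : ℝ) * e := by
        rw [sum_const, card_range, nsmul_eq_mul]
        push_cast
        ring
    _ ≤ ((y : ℝ) / X + 1) * e := by
        apply mul_le_mul_of_nonneg_right _ he
        have := @Nat.cast_div_le ℝ _ _ _ y X
        linarith

open Classical in
/-- counting the free blocks by groups of `k` -/
theorem groups (X l n k m K : ℕ) (hk : 0 < k) (hm : m * k ≤ K) :
    ((range m).filter (fun j => ∃ i < k, Fre X l (n + j * k * l) i)).card ≤
      ((range K).filter (fun i => Fre X l n i)).card := by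
  have hch : ∀ j ∈ (range m).filter (fun j => ∃ i < k, Fre X l (n + j * k * l) i),
      ∃ i, i < k ∧ Fre X l (n + j * k * l) i := by
    intro j hj
    exact (mem_filter.1 hj).2
  choose! f hf1 hf2 using hch
  apply card_le_card_of_injOn (fun j => j * k + f j)
  · intro j hj
    rw [mem_coe] at hj
    have hjm := mem_range.1 (mem_filter.1 hj).1
    have h1 := hf1 j hj
    have h2 := hf2 j hj
    rw [Fre_shift] at h2
    rw [mem_coe, mem_filter, mem_range]
    refine ⟨?_, h2⟩
    have h3 : (j + 1) * k ≤ m * k := Nat.mul_le_mul_right _ hjm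
    have h4 : (j + 1) * k = j * k + k := by ring
    change j * k + f j < K
    omega
  · intro j hj j' hj' h
    rw [mem_coe] at hj hj'
    have h1 := hf1 j hj
    have h2 := hf1 j' hj'
    have h3 : j * k + f j = j' * k + f j' := h
    have h4 : (j * k + f j) / k = j := by
      rw [Nat.mul_comm, Nat.mul_add_div hk, Nat.div_eq_of_lt h1, Nat.add_zero]
    have h5 : (j' * k + f j') / k = j' := by
      rw [Nat.mul_comm, Nat.mul_add_div hk, Nat.div_eq_of_lt h2, Nat.add_zero]
    rw [← h4, ← h5, h3]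

open Classical in
/-- the averaging argument over the shifts -/
theorem averaging (X l k m K : ℕ) (hk : 0 < k) (hm0 : 0 < m) (hm : m * k ≤ K) (x y : ℕ) (c e : ℝ)
    (hc : c * K ≤ m / 2)
    (h : ∀ j < m, (((Ico (x + j * k * l) (x + j * k * l + y)).filter
      (fun n => ¬ ∃ i < k, Fre X l n i)).card : ℝ) ≤ e) :
    (((Ico x (x + y)).filter (fun n =>
      (((range K).filter (fun i => Fre X l n i)).card : ℝ) < c * K)).card : ℝ) ≤ 2 * e := by
  set Bd := (Ico x (x + y)).filter (fun n =>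
      (((range K).filter (fun i => Fre X l n i)).card : ℝ) < c * K) with hBd
  have hm0' : (0 : ℝ) < m := by exact_mod_cast hm0
  have h1 : ∀ n ∈ Bd, (m : ℝ) / 2 ≤
      (((range m).filter (fun j => ¬ ∃ i < k, Fre X l (n + j * k * l) i)).card : ℝ) := by
    intro n hn
    have h2 := (mem_filter.1 hn).2
    have h3 := groups X l n k m K hk hm
    have h4 := card_filter_add_card_filter_not (s := range m)
      (fun j => ∃ i < k, Fre X l (n + j * k * l) i)
    rw [card_range] at h4
    have h5 : (((range m).filter (fun j => ∃ i < k, Fre X l (n + j * k * l) i)).card : ℝ) +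
        (((range m).filter (fun j => ¬ ∃ i < k, Fre X l (n + j * k * l) i)).card : ℝ) = m := by
      exact_mod_cast h4
    have h6 : (((range m).filter (fun j => ∃ i < k, Fre X l (n + j * k * l) i)).card : ℝ) ≤
        (((range K).filter (fun i => Fre X l n i)).card : ℝ) := by exact_mod_cast h3
    linarith
  have h2 : (Bd.card : ℝ) * (m / 2) ≤ ∑ n ∈ Bd,
      (((range m).filter (fun j => ¬ ∃ i < k, Fre X l (n + j * k * l) i)).card : ℝ) := by
    rw [← nsmul_eq_mul, ← sum_const]
    exact sum_le_sum h1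
  have h3 : ∑ n ∈ Bd,
      (((range m).filter (fun j => ¬ ∃ i < k, Fre X l (n + j * k * l) i)).card : ℝ) ≤
      ∑ j ∈ range m, (((Ico x (x + y)).filter
        (fun n => ¬ ∃ i < k, Fre X l (n + j * k * l) i)).card : ℝ) := by
    calc ∑ n ∈ Bd,
        (((range m).filter (fun j => ¬ ∃ i < k, Fre X l (n + j * k * l) i)).card : ℝ) ≤
        ∑ n ∈ Ico x (x + y),
          (((range m).filter (fun j => ¬ ∃ i < k, Fre X l (n + j * k * l) i)).card : ℝ) :=
          sum_le_sum_of_subset_of_nonneg (filter_subset _ _) (fun _ _ _ => Nat.cast_nonneg _)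
      _ = _ := by
          simp only [card_filter, Nat.cast_sum]
          rw [sum_comm]
  have h4 : ∀ j ∈ range m, (((Ico x (x + y)).filter
      (fun n => ¬ ∃ i < k, Fre X l (n + j * k * l) i)).card : ℝ) ≤ e := by
    intro j hj
    refine le_trans ?_ (h j (mem_range.1 hj))
    apply Nat.cast_le.2
    apply card_le_card_of_injOn (fun n => n + j * k * l)
    · intro n hn
      rw [mem_coe, mem_filter, mem_Ico] at hn
      change n + j * k * l ∈ _
      rw [mem_coe, mem_filter, mem_Ico]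
      exact ⟨⟨by omega, by omega⟩, hn.2⟩
    · intro a _ b _ hab
      simp only at hab
      omega
  have h5 : (Bd.card : ℝ) * (m / 2) ≤ m * e := by
    refine (h2.trans h3).trans ?_
    calc _ ≤ ∑ j ∈ range m, e := sum_le_sum h4
      _ = m * e := by rw [sum_const, card_range, nsmul_eq_mul]
  have h6 : (Bd.card : ℝ) * (m / 2) ≤ (2 * e) * (m / 2) := by linarith
  exact le_of_mul_le_mul_right h6 (by positivity)

/-- the scale -/
theorem scales (δ lam : ℝ) (hδ : 0 < δ) (hδ1 : δ < 1) (hlam : 0 < lam) (X₀ K : ℕ) :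
    ∃ x₀ : ℕ, ∀ x : ℕ, x₀ ≤ x → ∃ X : ℕ, X₀ ≤ X ∧ 0 < X ∧ (X : ℝ) ≤ (x : ℝ) ^ (δ / 2) ∧
      (x : ℝ) ^ (δ / 2) ≤ (x : ℝ) ^ δ ∧
      (8 : ℝ) * x ≤ (X : ℝ) ^ (8 / δ) ∧
      ((⌈lam * Real.log x⌉₊ : ℕ) : ℝ) ≤ (8 * lam / δ) * Real.log X ∧
      (K : ℝ) * ⌈lam * Real.log x⌉₊ + 1 ≤ x ∧ (X : ℝ) ≤ x := by
  have t1 : Tendsto (fun x : ℕ => (x : ℝ) ^ (δ / 4)) atTop atTop :=
    (tendsto_rpow_atTop (by positivity)).comp tendsto_natCast_atTop_atTop
  have t2 : Tendsto (fun x : ℕ => Real.log (x : ℝ)) atTop atTop :=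
    Real.tendsto_log_atTop.comp tendsto_natCast_atTop_atTop
  have e1 := t1.eventually_ge_atTop (max 2 (X₀ + 1))
  have e2 := t2.eventually_ge_atTop (1 / lam)
  have e3 := Pool.Agent.H862R2.PPSm5.logs_small (2 * K * lam + 1)
  have e4 := Filter.eventually_ge_atTop (16 : ℕ)
  obtain ⟨x₀, h0⟩ := Filter.eventually_atTop.1 (e1.and (e2.and (e3.and e4)))
  refine ⟨x₀, fun x hx => ?_⟩
  obtain ⟨h1, h2, h3, h4⟩ := h0 x hx
  have hx16 : (16 : ℝ) ≤ x := by exact_mod_cast h4
  have hx0 : (0 : ℝ) < x := by linarith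
  have hx1 : (1 : ℝ) ≤ x := by linarith
  set y := (x : ℝ) ^ (δ / 4) with hy
  have hy2 : 2 ≤ y := (le_max_left _ _).trans h1
  have hyX : (X₀ : ℝ) + 1 ≤ y := (le_max_right _ _).trans h1
  have hyy : (x : ℝ) ^ (δ / 2) = y * y := by
    rw [hy, ← Real.rpow_add hx0]
    congr 1
    ring
  have hXl : y ≤ (⌊(x : ℝ) ^ (δ / 2)⌋₊ : ℝ) := by
    have h5 := Nat.lt_floor_add_one ((x : ℝ) ^ (δ / 2))
    rw [hyy] at h5 ⊢
    nlinarith
  have hXu : (⌊(x : ℝ) ^ (δ / 2)⌋₊ : ℝ) ≤ (x : ℝ) ^ (δ / 2) := Nat.floor_le (by positivity)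
  set X := ⌊(x : ℝ) ^ (δ / 2)⌋₊ with hX
  have hL : 0 < Real.log x := Real.log_pos (by linarith)
  have hlogX : δ / 4 * Real.log x ≤ Real.log X := by
    rw [← Real.log_rpow hx0]
    exact Real.log_le_log (by positivity) hXl
  have hl1 : 1 ≤ lam * Real.log x := by
    rw [div_le_iff₀ hlam] at h2
    linarith
  have hceil : ((⌈lam * Real.log x⌉₊ : ℕ) : ℝ) ≤ 2 * (lam * Real.log x) := by
    have := Nat.ceil_lt_add_one (show 0 ≤ lam * Real.log x by positivity)
    linarith
  refine ⟨X, ?_, ?_, hXu, ?_, ?_, ?_, ?_, ?_⟩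
  · have : (X₀ : ℝ) ≤ X := by linarith
    exact_mod_cast this
  · have : (0 : ℝ) < X := by linarith
    exact_mod_cast this
  · exact Real.rpow_le_rpow_of_exponent_le hx1 (by linarith)
  · calc (8 : ℝ) * x ≤ (x : ℝ) * x := by nlinarith
      _ = (x : ℝ) ^ (2 : ℝ) := by rw [Real.rpow_two]; ring
      _ = y ^ (8 / δ) := by
          rw [hy, ← Real.rpow_mul hx0.le]
          congr 1
          field_simp
          norm_num
      _ ≤ (X : ℝ) ^ (8 / δ) := Real.rpow_le_rpow (by positivity) hXl (by positivity)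
  · refine hceil.trans ?_
    calc 2 * (lam * Real.log x) = (8 * lam / δ) * (δ / 4 * Real.log x) := by
          field_simp
          norm_num
      _ ≤ _ := mul_le_mul_of_nonneg_left hlogX (by positivity)
  · have h5 : (K : ℝ) * ⌈lam * Real.log x⌉₊ ≤ K * (2 * (lam * Real.log x)) :=
      mul_le_mul_of_nonneg_left hceil (Nat.cast_nonneg _)
    have h6 : 1 ≤ Real.log x := by
      rw [Real.le_log_iff_exp_le hx0]
      have := Real.exp_one_lt_d9
      linarith
    nlinarith
  · refine hXu.trans ?_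
    calc (x : ℝ) ^ (δ / 2) ≤ (x : ℝ) ^ (1 : ℝ) :=
          Real.rpow_le_rpow_of_exponent_le hx1 (by linarith)
      _ = x := Real.rpow_one _

open Classical in
/-- the theorem for short intervals -/
theorem short (δ lam ε : ℝ) (hδ : 0 < δ) (hδ1 : δ < 1) (hlam : 0 < lam) (hε : 0 < ε) :
    ∃ c : ℝ, 0 < c ∧ ∃ K₀ : ℕ, ∀ K : ℕ, K₀ ≤ K → ∃ x₀ : ℕ, ∀ x y : ℕ, x₀ ≤ x →
      (x : ℝ) ^ δ ≤ y → y ≤ x →
      (((Ioc x (x + y)).filter (fun n =>
        (((range K).filter (fun i => ∀ m ∈ Ioc (n + i * ⌈lam * Real.log x⌉₊)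
          (n + (i + 1) * ⌈lam * Real.log x⌉₊), ∃ p : ℕ, p.Prime ∧ (p : ℝ) ≤ (x : ℝ) ^ δ ∧
            p ∣ m)).card : ℝ) < c * K)).card : ℝ) ≤ ε * y := by
  obtain ⟨k, hk, X₀, hb⟩ := basic (8 * lam / δ) (min ε 1 / 4) (8 / δ) (by positivity)
    (by positivity) (by have := min_le_right ε 1; linarith) (by positivity)
  have hk0 : (0 : ℝ) < k := by exact_mod_cast hk
  refine ⟨1 / (4 * k), by positivity, 2 * k, fun K hK => ?_⟩
  obtain ⟨x₀, hx₀⟩ := scales δ lam hδ hδ1 hlam X₀ (K + 1)
  refine ⟨x₀, fun x y hx hy hyx => ?_⟩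
  obtain ⟨X, hX0, hXp, hXx, hxx, hx8, hl, hKl, hXx1⟩ := hx₀ x hx
  set l := ⌈lam * Real.log x⌉₊ with hld
  set m := K / k with hm
  have hmk : m * k ≤ K := Nat.div_mul_le_self _ _
  have hm2 : 2 ≤ m := by
    rw [hm, Nat.le_div_iff_mul_le hk]
    exact hK
  have hmK : (K : ℝ) ≤ 2 * m * k := by
    have h1 : K < (m + 1) * k := by
      rw [hm, mul_comm]
      exact Nat.lt_mul_div_succ K hk
    have h2 : K ≤ 2 * m * k := by nlinarith
    exact_mod_cast h2
  have hXy : (X : ℝ) ≤ y := hXx.trans (hxx.trans hy)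
  have hav := averaging X l k m K hk (by omega) hmk (x + 1) y (1 / (4 * k))
    (min ε 1 / 2 * y) (by
      rw [div_mul_eq_mul_div, one_mul, div_le_iff₀ (by positivity)]
      linarith) (by
    intro j hj
    have hX0' : (0 : ℝ) < X := by exact_mod_cast hXp
    have hjk : ((j * k * l : ℕ) : ℝ) ≤ (K : ℝ) * l := by
      have h1 : j * k ≤ K := (Nat.mul_le_mul_right k hj.le).trans hmk
      have h2 : j * k * l ≤ K * l := Nat.mul_le_mul_right l h1
      exact_mod_cast h2
    have hc := cover (fun n => ¬ ∃ i < k, Fre X l n i) (x + 1 + j * k * l) y X hXp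
      (min ε 1 / 4 * X) (by
        intro x' _ hx'2
        apply hb X hX0 x' l _ hl
        refine le_trans ?_ hx8
        have h3 : (x' : ℝ) ≤ x + 1 + ((j * k * l : ℕ) : ℝ) + y := by exact_mod_cast hx'2
        have h4 : (y : ℝ) ≤ x := by exact_mod_cast hyx
        push_cast at hKl
        have h5 : (0 : ℝ) ≤ l := Nat.cast_nonneg _
        nlinarith)
    refine hc.trans ?_
    have h5 : ((y : ℝ) / X + 1) * (min ε 1 / 4 * X) = min ε 1 / 4 * (y + X) := by
      field_simp
    rw [h5]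
    have h6 : 0 < min ε 1 := lt_min hε one_pos
    nlinarith)
  have h7 : (((Ioc x (x + y)).filter (fun n =>
        (((range K).filter (fun i => ∀ m ∈ Ioc (n + i * l)
          (n + (i + 1) * l), ∃ p : ℕ, p.Prime ∧ (p : ℝ) ≤ (x : ℝ) ^ δ ∧
            p ∣ m)).card : ℝ) < 1 / (4 * k) * K)).card : ℝ) ≤
      (((Ico (x + 1) (x + 1 + y)).filter (fun n =>
        (((range K).filter (fun i => Fre X l n i)).card : ℝ) < 1 / (4 * k) * K)).card : ℝ) := by
    apply Nat.cast_le.2
    apply card_le_card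
    intro n hn
    rw [mem_filter, mem_Ioc] at hn
    rw [mem_filter, mem_Ico]
    refine ⟨⟨by omega, by omega⟩, lt_of_le_of_lt ?_ hn.2⟩
    apply Nat.cast_le.2
    apply card_le_card
    intro i hi
    have hi' := (@mem_filter _ _ (_) _ _).1 hi
    refine (@mem_filter _ _ (_) _ _).2 ⟨hi'.1, ?_⟩
    intro q hq
    rw [mem_Ioc] at hq
    obtain ⟨p, hp, hpX, hpd⟩ := hi'.2 q hq.1 hq.2
    refine ⟨p, hp, ?_, hpd⟩
    have : (p : ℝ) ≤ X := by exact_mod_cast hpX
    exact this.trans (hXx.trans hxx)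
  refine (h7.trans hav).trans ?_
  have h8 : min ε 1 ≤ ε := min_le_left _ _
  have h9 : (0 : ℝ) ≤ y := Nat.cast_nonneg _
  nlinarith

end Pool.Agent.R526.AA
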