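import Pool.Agent.R526.AA.Sec

/-!
Cross moments of two weights with the same families and disjoint sets of positions.
-/

set_option autoImplicit false

open Finset Pool.Agent.H410R2.AC Pool.Agent.H410R2.EN Pool.Agent.H400R2.AC4

namespace Pool.Agent.R526.AA

variable {n : ℕ}

/-- the first half of the positions is in `B1`, the second in `B2` -/
def InP (B1 B2 : Finset ℕ) (σ : Fin (n + n) → Option ℕ) : Prop :=
  (∀ i : Fin n, ∀ a, σ (Fin.castAdd n i) = some a → a ∈ B1) ∧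
    (∀ i : Fin n, ∀ a, σ (Fin.natAdd n i) = some a → a ∈ B2)

open Classical in
/-- the indicator of `InP` -/
noncomputable def cpair (B1 B2 : Finset ℕ) (σ : Fin (n + n) → Option ℕ) : ℝ :=
  if InP B1 B2 σ then 1 else 0

lemma mem_cfg {B : Finset ℕ} {σ : Fin n → Option ℕ} :
    σ ∈ cfg n B ↔ (∀ τ a, σ τ = some a → a ∈ B) ∧ Inj σ := by
  classical
  unfold cfg
  rw [Finset.mem_filter, Fintype.mem_piFinset]
  refine and_congr_left fun _ => ?_
  constructor
  · intro h τ a ha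
    have := h τ
    rw [ha, Finset.some_mem_insertNone] at this
    exact this
  · intro h τ
    rw [Finset.mem_insertNone]
    intro a ha
    exact h τ a (by simpa using ha)

open Classical in
lemma sum_cpair {B1 B2 : Finset ℕ} (hd : Disjoint B1 B2) (F : (Fin (n + n) → Option ℕ) → ℝ) :
    ∑ σ ∈ cfg (n + n) (B1 ∪ B2), cpair B1 B2 σ * F σ =
      ∑ σ₁ ∈ cfg n B1, ∑ σ₂ ∈ cfg n B2, F (Fin.append σ₁ σ₂) := by
  rw [← Finset.sum_product']
  have h1 : ∑ σ ∈ cfg (n + n) (B1 ∪ B2), cpair B1 B2 σ * F σ =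
      ∑ σ ∈ (cfg (n + n) (B1 ∪ B2)).filter (fun σ => InP B1 B2 σ), F σ := by
    rw [Finset.sum_filter]
    refine Finset.sum_congr rfl fun σ _ => ?_
    unfold cpair
    split_ifs <;> simp
  rw [h1]
  symm
  refine Finset.sum_nbij' (fun x => Fin.append x.1 x.2)
    (fun σ => (fun i => σ (Fin.castAdd n i), fun i => σ (Fin.natAdd n i))) ?_ ?_ ?_ ?_ ?_
  · rintro ⟨σ₁, σ₂⟩ h
    rw [Finset.mem_product, mem_cfg, mem_cfg] at h
    obtain ⟨⟨h1, i1⟩, ⟨h2, i2⟩⟩ := h
    rw [Finset.mem_filter, mem_cfg]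
    refine ⟨⟨?_, ?_⟩, ?_, ?_⟩
    · intro τ a
      refine Fin.addCases (fun i => ?_) (fun i => ?_) τ
      · simp only [Fin.append_left]
        intro h
        exact Finset.mem_union_left _ (h1 i a h)
      · simp only [Fin.append_right]
        intro h
        exact Finset.mem_union_right _ (h2 i a h)
    · intro τ τ' a
      refine Fin.addCases (fun i => ?_) (fun i => ?_) τ
      · refine Fin.addCases (fun j => ?_) (fun j => ?_) τ'
        · simp only [Fin.append_left]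
          intro h h'
          rw [i1 i j a h h']
        · simp only [Fin.append_left, Fin.append_right]
          intro h h'
          exact absurd (h2 j a h') (Finset.disjoint_left.1 hd (h1 i a h))
      · refine Fin.addCases (fun j => ?_) (fun j => ?_) τ'
        · simp only [Fin.append_left, Fin.append_right]
          intro h h'
          exact absurd (h2 i a h) (Finset.disjoint_left.1 hd (h1 j a h'))
        · simp only [Fin.append_right]
          intro h h'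
          rw [i2 i j a h h']
    · intro i a
      simp only [Fin.append_left]
      exact h1 i a
    · intro i a
      simp only [Fin.append_right]
      exact h2 i a
  · intro σ h
    rw [Finset.mem_filter, mem_cfg] at h
    obtain ⟨⟨h1, i1⟩, h2, h3⟩ := h
    rw [Finset.mem_product, mem_cfg, mem_cfg]
    refine ⟨⟨fun i a h => h2 i a h, fun i j a h h' => ?_⟩,
      ⟨fun i a h => h3 i a h, fun i j a h h' => ?_⟩⟩
    · exact Fin.castAdd_injective n n (i1 _ _ a h h')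
    · exact Fin.natAdd_injective n n (i1 _ _ a h h')
  · rintro ⟨σ₁, σ₂⟩ _
    simp only [Fin.append_left, Fin.append_right]
  · intro σ _
    funext τ
    refine Fin.addCases (fun i => ?_) (fun i => ?_) τ
    · simp only [Fin.append_left]
    · simp only [Fin.append_right]
  · rintro ⟨σ₁, σ₂⟩ _
    rfl

lemma term_append (x : Fin (n + n) → ℕ → ℝ) (x₁ x₂ : Fin n → ℕ → ℝ)
    (h1 : ∀ i a, x (Fin.castAdd n i) a = x₁ i a) (h2 : ∀ i a, x (Fin.natAdd n i) a = x₂ i a)
    (σ₁ σ₂ : Fin n → Option ℕ) :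
    term x (Fin.append σ₁ σ₂) = term x₁ σ₁ * term x₂ σ₂ := by
  unfold term
  rw [Fin.prod_univ_add]
  congr 1
  · refine Finset.prod_congr rfl fun i _ => ?_
    rw [Fin.append_left]
    cases σ₁ i with
    | none => rfl
    | some a => exact h1 i a
  · refine Finset.prod_congr rfl fun i _ => ?_
    rw [Fin.append_right]
    cases σ₂ i with
    | none => rfl
    | some a => exact h2 i a

lemma occ_append (q : Fin (n + n) → ℝ) (q₁ q₂ : Fin n → ℝ)
    (h1 : ∀ i, q (Fin.castAdd n i) = q₁ i) (h2 : ∀ i, q (Fin.natAdd n i) = q₂ i)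
    (σ₁ σ₂ : Fin n → Option ℕ) :
    occ q (Fin.append σ₁ σ₂) = occ q₁ σ₁ * occ q₂ σ₂ := by
  unfold occ
  rw [Fin.prod_univ_add]
  congr 1
  · refine Finset.prod_congr rfl fun i _ => ?_
    rw [Fin.append_left, h1]
  · refine Finset.prod_congr rfl fun i _ => ?_
    rw [Fin.append_right, h2]

lemma WW_pair {B1 B2 : Finset ℕ} (hd : Disjoint B1 B2) (x : Fin (n + n) → ℕ → ℝ)
    (x₁ x₂ : Fin n → ℕ → ℝ)
    (h1 : ∀ i a, x (Fin.castAdd n i) a = x₁ i a) (h2 : ∀ i a, x (Fin.natAdd n i) a = x₂ i a) :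
    WW (B1 ∪ B2) (cpair B1 B2) x = WW B1 (fun _ => 1) x₁ * WW B2 (fun _ => 1) x₂ := by
  unfold WW
  rw [sum_cpair hd, Finset.sum_mul_sum]
  refine Finset.sum_congr rfl fun σ₁ _ => Finset.sum_congr rfl fun σ₂ _ => ?_
  rw [term_append x x₁ x₂ h1 h2]
  ring

lemma cpair_sq (B1 B2 : Finset ℕ) (σ : Fin (n + n) → Option ℕ) :
    cpair B1 B2 σ ^ 2 = cpair B1 B2 σ := by
  unfold cpair
  split_ifs <;> simp

lemma abs_cpair (B1 B2 : Finset ℕ) (σ : Fin (n + n) → Option ℕ) : |cpair B1 B2 σ| ≤ 1 := by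
  unfold cpair
  split_ifs <;> simp

lemma occ_pair {B1 B2 : Finset ℕ} (hd : Disjoint B1 B2) (q : Fin (n + n) → ℝ)
    (q₁ : Fin n → ℝ)
    (h1 : ∀ i, q (Fin.castAdd n i) = q₁ i) (h2 : ∀ i, q (Fin.natAdd n i) = q₁ i) :
    ∑ σ ∈ cfg (n + n) (B1 ∪ B2), cpair B1 B2 σ ^ 2 * occ q σ =
      (∑ σ ∈ cfg n B1, occ q₁ σ) * ∑ σ ∈ cfg n B2, occ q₁ σ := by
  simp only [cpair_sq]
  rw [sum_cpair hd, Finset.sum_mul_sum]
  refine Finset.sum_congr rfl fun σ₁ _ => Finset.sum_congr rfl fun σ₂ _ => ?_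
  rw [occ_append q q₁ q₁ h1 h2]

lemma disj_pair {B1 B2 : Finset ℕ} (hd : Disjoint B1 B2) (S : Fin n → Finset (Finset ℕ))
    (hS : ∀ τ τ', τ ≠ τ' → Disjoint (S τ) (S τ')) (σ σ' : Fin (n + n) → Option ℕ)
    (h1 : cpair B1 B2 σ ≠ 0) (h2 : cpair B1 B2 σ' ≠ 0) :
    ∀ τ τ' a, σ τ = some a → σ' τ' = some a → τ ≠ τ' →
      Disjoint ((Fin.append S S : Fin (n + n) → Finset (Finset ℕ)) τ)
        ((Fin.append S S : Fin (n + n) → Finset (Finset ℕ)) τ') := by
  have k1 : InP B1 B2 σ := by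
    by_contra h
    exact h1 (by unfold cpair; rw [if_neg h])
  have k2 : InP B1 B2 σ' := by
    by_contra h
    exact h2 (by unfold cpair; rw [if_neg h])
  intro τ τ' a
  refine Fin.addCases (fun i => ?_) (fun i => ?_) τ
  · refine Fin.addCases (fun j => ?_) (fun j => ?_) τ'
    · intro h h' hne
      rw [Fin.append_left, Fin.append_left]
      apply hS
      rintro rfl
      exact hne rfl
    · intro h h' _
      exact absurd (k2.2 j a h') (Finset.disjoint_left.1 hd (k1.1 i a h))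
  · refine Fin.addCases (fun j => ?_) (fun j => ?_) τ'
    · intro h h' _
      exact absurd (k1.2 i a h) (Finset.disjoint_left.1 hd (k2.1 j a h'))
    · intro h h' hne
      rw [Fin.append_right, Fin.append_right]
      apply hS
      rintro rfl
      exact hne rfl

/-- the cross moment of two weights with the same disjoint families, the sets of positions being
disjoint -/
theorem cross_gen (n : ℕ) (C : ℝ) (hC : 1 ≤ C) : ∃ K : ℕ, 1 ≤ K ∧
  ∀ (b J z0 D0 : ℕ) (P1 P2 B1 B2 : Finset ℕ) (ρ : ℕ → ℕ → ℕ) (κ : ℕ → ℕ → ℝ) (e : ℕ → ℕ)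
    (w : ℕ → ℝ) (M : ℕ) (A : ℝ) (err : Finset ℕ → ℝ) (S : Fin n → Finset (Finset ℕ))
    (g : Fin n → ℝ) (Y : Fin n → ℕ) (V δ : ℝ), Disjoint B1 B2 →
    Setup K b J z0 D0 P1 P2 (B1 ∪ B2) ρ κ e w M A err →
    (2 ^ 2 ^ J) ^ (K * b) * (∏ τ, Y τ) ^ 4 ≤ D0 → 0 < V → V ≤ 1 → δ ≤ 1 →
    Pi1 P2 ≤ C / V → ((B1 ∪ B2).card : ℝ) * V1 P1 ≤ C / V → (∀ τ, 0 ≤ g τ ∧ g τ ≤ C) →
    (∀ τ, ∀ R ∈ S τ, R ⊆ P2) → (∀ τ, ∅ ∉ S τ) → (∀ τ τ', τ ≠ τ' → Disjoint (S τ) (S τ')) →
    (∀ U ⊆ B1 ∪ B2, U.card ≤ 2 * (n + n) + 2 → dl e ρ (P1 ∪ P2) U ≤ δ) →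
    (∀ τ, 1 ≤ Y τ ∧ ∀ R ∈ S τ, ∏ p ∈ R, p ≤ Y τ) →
      |∑ m ∈ range M, w m * (WW B1 (fun _ => 1) (xx ρ P1 S g m) *
          WW B2 (fun _ => 1) (xx ρ P1 S g m)) ^ 2 -
        A * ((∑ σ ∈ cfg n B1, occ (fun τ => g τ ^ 2 * (V1 P1 * GG (S τ))) σ) *
          ∑ σ ∈ cfg n B2, occ (fun τ => g τ ^ 2 * (V1 P1 * GG (S τ))) σ)| ≤
      EF (n + n) K b J (B1 ∪ B2).card A V δ (ET K (P1 ∪ P2) D0 err) := by
  obtain ⟨K, hK, H⟩ := second_gen (n + n) C hC
  refine ⟨K, hK, ?_⟩
  intro b J z0 D0 P1 P2 B1 B2 ρ κ e w M A err S g Y V δ hd hset hD hV hV1 hδ hPi hB hg hSP hS0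
    hSd hdel hY
  have hall : ∀ {P : Fin (n + n) → Prop}, (∀ i, P (Fin.castAdd n i)) → (∀ i, P (Fin.natAdd n i)) →
      ∀ τ, P τ := fun h1 h2 τ => Fin.addCases h1 h2 τ
  have h := H b J z0 D0 P1 P2 (B1 ∪ B2) ρ κ e w M A err (Fin.append S S) (Fin.append g g)
    (Fin.append Y Y) V δ hset (by
      rw [Fin.prod_univ_add]
      simp only [Fin.append_left, Fin.append_right]
      have e1 : ((∏ i, Y i) * ∏ i, Y i) ^ 2 = (∏ τ, Y τ) ^ 4 := by ring
      rw [e1]
      exact hD) hV hV1 hδ hPi hB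
    (hall (fun i => by rw [Fin.append_left]; exact hg i)
      (fun i => by rw [Fin.append_right]; exact hg i))
    (hall (fun i => by rw [Fin.append_left]; exact hSP i)
      (fun i => by rw [Fin.append_right]; exact hSP i))
    (hall (fun i => by rw [Fin.append_left]; exact hS0 i)
      (fun i => by rw [Fin.append_right]; exact hS0 i))
    hdel
    (hall (fun i => by simp only [Fin.append_left]; exact hY i)
      (fun i => by simp only [Fin.append_right]; exact hY i))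
    (cpair B1 B2) (abs_cpair B1 B2)
    (fun σ _ σ' _ h1 h2 => disj_pair hd S hSd σ σ' h1 h2)
  have e1 : ∀ m, WW (B1 ∪ B2) (cpair B1 B2) (xx ρ P1 (Fin.append S S) (Fin.append g g) m) =
      WW B1 (fun _ => 1) (xx ρ P1 S g m) * WW B2 (fun _ => 1) (xx ρ P1 S g m) := by
    intro m
    apply WW_pair hd
    · intro i a
      unfold xx
      rw [Fin.append_left, Fin.append_left]
    · intro i a
      unfold xx
      rw [Fin.append_right, Fin.append_right]
  have e2 := occ_pair hd (q := fun τ => (Fin.append g g : Fin (n + n) → ℝ) τ ^ 2 *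
      (V1 P1 * GG ((Fin.append S S : Fin (n + n) → Finset (Finset ℕ)) τ)))
    (q₁ := fun τ => g τ ^ 2 * (V1 P1 * GG (S τ)))
    (fun i => by simp only [Fin.append_left]) (fun i => by simp only [Fin.append_right])
  simp only [e1] at h
  rw [e2] at h
  exact h

end Pool.Agent.R526.AA
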