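import Pool.Agent.R526.AA.Cross

/-!
Cross moments in the notation of the project PP.
-/

set_option autoImplicit false

open Finset

namespace Pool.Agent.R526.AA

open Pool.Agent.H361R2.PP
open Pool.Agent.H410R2
open Pool.Agent.H372R2.PPSM4

theorem cross_pp (t : ℕ) : ∃ K : ℕ, 1 ≤ K ∧
  ∀ (o : Option ℕ) (δ : ℝ) (X b J D0 : ℕ) (P2' : Finset ℕ) (S : Finset ℕ) (Ω : ℝ)
    (Er : Finset ℕ → ℝ) (u : Fin t → ℝ) (D : Dat t u 1 δ X) (B1 B2 : Finset ℕ) (Y : Fin t → ℕ)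
    (V d E : ℝ),
    J = JJ δ X → K ≤ b → K ≤ HH X → HH X < 2 ^ 2 ^ J → 1 ≤ J →
    (∀ p ∈ P2', p.Prime ∧ 2 ^ 2 ^ J ≤ p) → (∀ τ, ∀ R ∈ D.S τ, R ⊆ P2' ∧ ∏ p ∈ R, p ≤ Y τ) →
    (∀ τ, 1 ≤ Y τ) →
    0 ≤ Ω → Eqd o (P1 (HH X) J ∪ P2') S Ω Er →
    ∑ T ∈ (P1 (HH X) J ∪ P2').powerset.filter (fun T : Finset ℕ => ∏ p ∈ T, p ≤ D0),
      (K : ℝ) ^ T.card * Er T ≤ E →
    (2 ^ 2 ^ J) ^ (K * b) * (∏ τ, Y τ) ^ 4 ≤ D0 → 0 < V → V ≤ 1 → d ≤ 1 →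
    AC.Pi1 P2' ≤ 1 / V → ((B1 ∪ B2).card : ℝ) * VV δ X ≤ 1 / V →
    (∀ U ⊆ B1 ∪ B2, U.card ≤ 4 * t + 2 → EN.dl (ee o) rho (P1 (HH X) J ∪ P2') U ≤ d) →
    Disjoint B1 B2 → (∀ a, D.cf a = -1) →
      |∑ n ∈ S, (AC.WW B1 (fun _ => 1) (xx D n) * AC.WW B2 (fun _ => 1) (xx D n)) ^ 2 -
        Ω * (ZZ D B1 (fun _ => 1) * ZZ D B2 (fun _ => 1))| ≤
        EN.EF (t + t) K b J (B1 ∪ B2).card Ω V d E := by
  obtain ⟨K, hK, H⟩ := cross_gen t 1 le_rfl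
  obtain ⟨hr, hrg, hFF⟩ := Pool.Agent.H379R2.PP.sm1
  refine ⟨K, hK, ?_⟩
  intro o δ X b J D0 P2' S Ω Er u D B1 B2 Y V d E hJ hKb hKH hHJ hJ1 hP2 hDS hY
    hΩ hEq hE hD0 hV hV1 hd1 hPi hB hdl hdis hcf
  have hP1 : ∀ p ∈ P1 (HH X) J, p.Prime ∧ HH X < p ∧ p ≤ 2 ^ 2 ^ J := by
    intro p hp
    simp only [P1, Finset.mem_filter, Finset.mem_range] at hp
    exact ⟨hp.2.1, hp.2.2, hp.1.le⟩
  have hP2a : ∀ p ∈ P2', p.Prime ∧ HH X < p ∧ 2 ^ 2 ^ J < p := by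
    intro p hp
    obtain ⟨hpp, hple⟩ := hP2 p hp
    refine ⟨hpp, lt_of_lt_of_le hHJ hple, lt_of_le_of_ne hple ?_⟩
    intro he
    rw [← he] at hpp
    exact not_prime_pow hJ1 hpp
  have hpr : ∀ p ∈ P1 (HH X) J ∪ P2', p.Prime := by
    intro p hp
    rcases Finset.mem_union.1 hp with h | h
    · exact (hP1 p h).1
    · exact (hP2 p h).1
  have hge1 : ∀ p ∈ P1 (HH X) J ∪ P2', 1 ≤ p := fun p hp => (hpr p hp).one_lt.le
  have hge1a : ∀ p ∈ P1 (HH X) J, 1 ≤ p := fun p hp => hge1 p (Finset.mem_union_left _ hp)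
  have hge1b : ∀ p ∈ P2', 1 ≤ p := fun p hp => hge1 p (Finset.mem_union_right _ hp)
  have hErn : ∀ T, 0 ≤ Er T := hEq.2.1
  have hM : ∀ n ∈ S, n < S.sup id + 1 := by
    intro n hn
    exact Nat.lt_succ_of_le (Finset.le_sup (f := id) hn)
  obtain ⟨hEqd, hDens⟩ := Pool.Agent.H379R2.PP.sm3 o (P1 (HH X) J ∪ P2') S Ω Er (S.sup id + 1) D0
    hpr hEq hM
  set M := S.sup id + 1 with hMdef
  set w : ℕ → ℝ := fun n => if n ∈ S then 1 else 0 with hw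
  have hw0 : ∀ m, 0 ≤ w m := by
    intro m; simp only [hw]; split_ifs <;> norm_num
  have hsetup : EN.Setup K b J (HH X) D0 (P1 (HH X) J) P2' (B1 ∪ B2) rho (kk o) (ee o) w M Ω
      Er := by
    refine ⟨hKb, hKH, hP1, hP2a, hDens, hw0, hΩ, hEqd, ?_⟩
    intro p hp a _
    exact rho_lt a (hge1 p hp)
  have hV1eq : EN.V1 (P1 (HH X) J) = VV δ X := by
    rw [hJ]; rfl
  have hxx : ∀ n, EN.xx rho (P1 (HH X) J) D.S D.g n = xx D n := by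
    intro n
    funext τ a
    unfold EN.xx xx
    rw [hrg _ _ _ hge1a, hFF (D.S τ) a n
      (fun R hR p hp => hge1b p ((hDS τ R hR).1 hp)), hJ, hcf a]
    ring
  have hZZ : ∀ B : Finset ℕ, ∑ σ ∈ AC.cfg t B,
      AC.occ (fun τ => D.g τ ^ 2 * (EN.V1 (P1 (HH X) J) * AC.GG (D.S τ))) σ =
      ZZ D B (fun _ => 1) := by
    intro B
    unfold ZZ
    refine Finset.sum_congr rfl fun σ _ => ?_
    rw [one_pow, one_mul]
    unfold AC.occ AC.term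
    refine Finset.prod_congr rfl fun τ _ => ?_
    cases hs : σ τ with
    | none => simp
    | some a =>
      simp only [reduceCtorEq, if_false]
      unfold qq
      rw [hcf a, hV1eq]
      ring
  have h := H b J (HH X) D0 (P1 (HH X) J) P2' B1 B2 rho (kk o) (ee o) w M Ω Er D.S D.g Y V d
    hdis hsetup hD0 hV hV1 hd1 hPi (by rw [hV1eq]; exact hB) (fun τ => D.hg τ)
    (fun τ R hR => (hDS τ R hR).1) D.h0 D.hd
    (fun U hU hc => hdl U hU (hc.trans (by omega)))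
    (fun τ => ⟨hY τ, fun R hR => (hDS τ R hR).2⟩)
  simp only [hxx, hZZ] at h
  simp only [hw] at h
  rw [sum_ind S M hM] at h
  refine h.trans ?_
  unfold EN.EF
  have hbc : (0 : ℝ) ≤ (K / V ^ K * (((B1 ∪ B2).card : ℝ) + 1) ^ (2 * (t + t) + 2)) := by
    positivity
  have h2 : EN.ET K (P1 (HH X) J ∪ P2') D0 Er ≤ E := hE
  gcongr

end Pool.Agent.R526.AA
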