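import Pool.Agent.R526.AA.Alm

/-!
Blocks of integers with a small prime factor, near almost all the integers of a short interval.
-/

set_option autoImplicit false

open Finset

namespace Pool.Agent.R526.AA

open Pool.Agent.H361R2.PP
open Pool.Agent.H20R2.EQI

/-- number of integers in `[x, x + X)` in a residue class -/
lemma cnt_class2 (x X M v : ℕ) (hM : 0 < M) :
    |(((Ico x (x + X)).filter (fun n => n ≡ v [MOD M])).card : ℝ) - (X : ℝ) / M| ≤ 1 := by
  have h := Nat.Ico_filter_modEq_card x (x + X) hM v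
  set c := ((Ico x (x + X)).filter (fun n => n ≡ v [MOD M])).card with hc
  set a : ℚ := (((x + X : ℕ) : ℚ) - (v : ℚ)) / (M : ℚ) with ha
  set b : ℚ := ((x : ℚ) - (v : ℚ)) / (M : ℚ) with hb
  have hMq : (0 : ℚ) < M := by exact_mod_cast hM
  have hab : a - b = (X : ℚ) / M := by
    rw [ha, hb]; push_cast; field_simp; ring
  have hXM : (0 : ℚ) ≤ (X : ℚ) / M := by positivity
  have h1 := Int.le_ceil a
  have h2 := Int.ceil_lt_add_one a
  have h3 := Int.le_ceil b
  have h4 := Int.ceil_lt_add_one b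
  have hq : |(c : ℚ) - (X : ℚ) / M| ≤ 1 := by
    have hcq : (c : ℚ) = max ((⌈a⌉ : ℚ) - ⌈b⌉) 0 := by
      have := congrArg (fun z : ℤ => (z : ℚ)) h
      push_cast at this
      rw [← hab] at *
      convert this using 2
    rw [hcq, abs_le, ← hab]
    constructor
    · have := le_max_left ((⌈a⌉ : ℚ) - ⌈b⌉) 0
      linarith
    · have : max ((⌈a⌉ : ℚ) - ⌈b⌉) 0 ≤ a - b + 1 := by
        apply max_le
        · linarith
        · rw [hab]; linarith
      linarith
  have hr : ((|(c : ℚ) - (X : ℚ) / M| : ℚ) : ℝ) ≤ ((1 : ℚ) : ℝ) := by exact_mod_cast hq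
  push_cast at hr
  exact hr

lemma eqd2 (x X b : ℕ) (hb : b < Wm X) (P : Finset ℕ) (hP : ∀ p ∈ P, p.Prime ∧ HH X < p) :
    Eqd none P ((Ico x (x + X)).filter (fun n => n % Wm X = b)) ((X : ℝ) / Wm X) (fun _ => 1) := by
  refine ⟨?_, fun _ => zero_le_one, ?_⟩
  · intro n _ p _ a ha
    simp at ha
  · intro D hD r _
    have hDp : ∀ p ∈ D, p.Prime ∧ HH X < p := fun p hp => hP p (hD hp)
    have hcop := cop_W X D hDp
    have hWpos : 0 < Wm X := primorial_pos _
    have hDpos : 0 < ∏ p ∈ D, p := Finset.prod_pos (fun p hp => (hDp p hp).1.pos)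
    obtain ⟨v, hv1, hv2⟩ := Nat.chineseRemainder hcop b r
    have hset : (((Ico x (x + X)).filter (fun n => n % Wm X = b)).filter
        (fun n => ∀ p ∈ D, n % p = r % p)) =
        (Ico x (x + X)).filter (fun n => n ≡ v [MOD Wm X * ∏ p ∈ D, p]) := by
      rw [filter_filter]
      apply filter_congr
      intro n _
      rw [modD D (fun p hp => (hDp p hp).1) n r, ← Nat.modEq_and_modEq_iff_modEq_mul hcop]
      have hbb : b % Wm X = b := Nat.mod_eq_of_lt hb
      constructor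
      · rintro ⟨h1, h2⟩
        refine ⟨?_, h2.trans hv2.symm⟩
        have : n ≡ b [MOD Wm X] := by unfold Nat.ModEq; rw [h1, hbb]
        exact this.trans hv1.symm
      · rintro ⟨h1, h2⟩
        refine ⟨?_, h2.trans hv2⟩
        have : n ≡ b [MOD Wm X] := h1.trans hv1
        unfold Nat.ModEq at this
        rw [this, hbb]
    rw [hset]
    have hph : ∏ p ∈ D, ph none p = ((∏ p ∈ D, p : ℕ) : ℝ) := by
      push_cast
      apply prod_congr rfl
      intro p _
      simp [ph]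
    have h := cnt_class2 x X (Wm X * ∏ p ∈ D, p) v (Nat.mul_pos hWpos hDpos)
    rw [hph, div_div, ← Nat.cast_mul]
    exact h

/-- the sum of the errors -/
theorem err_sum (K A : ℕ) : ∃ X₀ : ℕ, ∀ X : ℕ, X₀ ≤ X →
    ∑ D ∈ (PX X).powerset.filter (fun D : Finset ℕ =>
      ∏ p ∈ D, (p : ℝ) ≤ (X : ℝ) ^ (1 / 2 - 1 / 32 : ℝ)), (K : ℝ) ^ D.card * (1 : ℝ) ≤
      (X : ℝ) / Wm X / Real.log X ^ A := by
  obtain ⟨θ, hθd⟩ : ∃ θ : ℝ, θ = 1 / 2 + 1 / 32 := ⟨_, rfl⟩
  have hθ : 0 < θ := by rw [hθd]; norm_num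
  set ε := θ / 2 with hε
  have hε0 : 0 < ε := by positivity
  set K1 : ℝ := (K : ℝ) + 1 with hK1
  have hK11 : 1 ≤ K1 := by rw [hK1]; have : (0 : ℝ) ≤ K := Nat.cast_nonneg K; linarith
  -- the threshold for large primes
  obtain ⟨P0, hP0⟩ : ∃ P0 : ℕ, ∀ p : ℕ, P0 ≤ p → K1 ≤ (p : ℝ) ^ ε := by
    have h1 : Filter.Tendsto (fun p : ℕ => (p : ℝ) ^ ε) Filter.atTop Filter.atTop :=
      (tendsto_rpow_atTop hε0).comp tendsto_natCast_atTop_atTop
    exact Filter.eventually_atTop.1 (h1.eventually_ge_atTop K1)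
  obtain ⟨X₁, hX₁⟩ := ev_large (K1 ^ P0) (A + 1) ε hε0
  refine ⟨max X₁ 16, fun X hX => ?_⟩
  have hexp : (1 / 2 - 1 / 32 : ℝ) = 1 - θ := by rw [hθd]; norm_num
  rw [hexp]
  have hX16 : 16 ≤ X := (le_max_right _ _).trans hX
  have hX' : (16 : ℝ) ≤ X := by exact_mod_cast hX16
  have hX0 : (0 : ℝ) < X := by linarith
  have hlog : 1 ≤ Real.log X := by
    rw [Real.le_log_iff_exp_le (by linarith)]
    have := Real.exp_one_lt_d9
    linarith
  have hev := hX₁ X ((le_max_left _ _).trans hX)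
  have hW := W_le X hX16
  have hWpos : (0 : ℝ) < Wm X := by exact_mod_cast (primorial_pos _)
  have hPX : ∀ p ∈ PX X, p.Prime := by
    intro p hp
    rw [PX, mem_filter] at hp
    exact hp.2.1
  have hY0 : 0 < (X : ℝ) ^ (1 - θ) := Real.rpow_pos_of_pos hX0 _
  calc ∑ D ∈ (PX X).powerset.filter
          (fun D : Finset ℕ => ∏ p ∈ D, (p : ℝ) ≤ (X : ℝ) ^ (1 - θ)), (K : ℝ) ^ D.card * 1
      ≤ ∑ D ∈ (PX X).powerset.filter
          (fun D : Finset ℕ => ∏ p ∈ D, (p : ℝ) ≤ (X : ℝ) ^ (1 - θ)),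
            K1 ^ P0 * ((X : ℝ) ^ (1 - θ)) ^ ε := by
        apply sum_le_sum
        intro D hD
        rw [mem_filter, mem_powerset] at hD
        rw [mul_one]
        have h1 : (K : ℝ) ^ D.card ≤ K1 ^ D.card :=
          pow_le_pow_left₀ (Nat.cast_nonneg K) (by rw [hK1]; linarith) _
        have h2 := pow_card_le K1 hK11 ε P0 hP0 hε0.le D
          (fun p hp => (hPX p (hD.1 hp)).one_le)
        refine h1.trans (h2.trans ?_)
        apply mul_le_mul_of_nonneg_left _ (by positivity)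
        exact Real.rpow_le_rpow (by positivity) hD.2 hε0.le
    _ = (((PX X).powerset.filter
          (fun D : Finset ℕ => ∏ p ∈ D, (p : ℝ) ≤ (X : ℝ) ^ (1 - θ))).card : ℝ) *
            (K1 ^ P0 * ((X : ℝ) ^ (1 - θ)) ^ ε) := by
        rw [sum_const, nsmul_eq_mul]
    _ ≤ (X : ℝ) ^ (1 - θ) * (K1 ^ P0 * ((X : ℝ) ^ (1 - θ)) ^ ε) := by
        apply mul_le_mul_of_nonneg_right _ (by positivity)
        refine (card_D (PX X) hPX _).trans ?_
        rw [max_eq_left hY0.le]
    _ = K1 ^ P0 * (X : ℝ) ^ ((1 - θ) + (1 - θ) * ε) := by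
        rw [Real.rpow_add hX0, Real.rpow_mul hX0.le]; ring
    _ ≤ K1 ^ P0 * (X : ℝ) ^ (1 - ε) := by
        apply mul_le_mul_of_nonneg_left _ (by positivity)
        apply Real.rpow_le_rpow_of_exponent_le (by linarith)
        rw [hε]; nlinarith
    _ ≤ (X : ℝ) / Wm X / Real.log X ^ A := by
        rw [div_div, le_div_iff₀ (by positivity)]
        have h1 : (X : ℝ) = (X : ℝ) ^ (1 - ε) * (X : ℝ) ^ ε := by
          rw [← Real.rpow_add hX0]; simp
        have h2 : (Wm X : ℝ) * Real.log X ^ A ≤ Real.log X ^ (A + 1) := by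
          rw [pow_succ, mul_comm]
          exact mul_le_mul_of_nonneg_left hW (by positivity)
        calc K1 ^ P0 * (X : ℝ) ^ (1 - ε) * (Wm X * Real.log X ^ A)
            ≤ K1 ^ P0 * (X : ℝ) ^ (1 - ε) * Real.log X ^ (A + 1) := by
              apply mul_le_mul_of_nonneg_left h2 (by positivity)
          _ = (X : ℝ) ^ (1 - ε) * (K1 ^ P0 * Real.log X ^ (A + 1)) := by ring
          _ ≤ (X : ℝ) ^ (1 - ε) * (X : ℝ) ^ ε :=
              mul_le_mul_of_nonneg_left hev (by positivity)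
          _ = X := h1.symm

/-- the positions of the block number `i` shifted by `h` -/
noncomputable def Bk (X b N h l i : ℕ) : Finset ℕ :=
  (BB X b N).filter (fun a => h + i * l < a ∧ a ≤ h + (i + 1) * l)

theorem Bk_sub (X b N h l i : ℕ) : Bk X b N h l i ⊆ BB X b N := filter_subset _ _

theorem Bk_disj {X b N h l i j : ℕ} (hij : i ≠ j) :
    Disjoint (Bk X b N h l i) (Bk X b N h l j) := by
  rw [Finset.disjoint_left]
  intro a ha hb
  unfold Bk at ha hb
  rw [mem_filter] at ha hb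
  rcases Nat.lt_or_gt_of_ne hij with h1 | h1
  · have : (i + 1) * l ≤ j * l := Nat.mul_le_mul_right _ h1
    omega
  · have : (j + 1) * l ≤ i * l := Nat.mul_le_mul_right _ h1
    omega

/-- the size of a block -/
theorem Bk_card (μ : ℝ) (hμ : 0 < μ) (Λ : ℝ) (hΛ : 0 < Λ) : ∃ X₀ : ℕ, ∀ X : ℕ, X₀ ≤ X →
    ∀ b h l i : ℕ, (l : ℝ) ≤ μ * Real.log X →
      (h : ℝ) + i * l + μ * Real.log X ≤ Λ * Real.log X →
      ((Bk X b ⌊Λ * Real.log X⌋₊ h l i).card : ℝ) ≤
        2 * μ * (Real.log X * (Nat.totient (Wm X) / Wm X)) := by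
  obtain ⟨X₀, h0⟩ := Pool.Agent.H363R2.PPCnt.cnt 1 μ Λ one_pos hμ hΛ
  refine ⟨X₀, fun X hX b h l i hl hi => ?_⟩
  have h1 := h0 X hX b ((h : ℝ) + i * l) ((h : ℝ) + i * l + μ * Real.log X) (by positivity) le_rfl
    hi
  have h2 := (abs_le.1 h1).2
  have h3 : ((Bk X b ⌊Λ * Real.log X⌋₊ h l i).card : ℝ) ≤
      (((BB X b ⌊Λ * Real.log X⌋₊).filter (fun a : ℕ => (h : ℝ) + i * l < a ∧
        (a : ℝ) ≤ (h : ℝ) + i * l + μ * Real.log X)).card : ℝ) := by
    apply Nat.cast_le.2
    apply card_le_card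
    intro a ha
    unfold Bk at ha
    rw [mem_filter] at ha ⊢
    refine ⟨ha.1, ?_, ?_⟩
    · exact_mod_cast ha.2.1
    · have h4 : (a : ℝ) ≤ (h : ℝ) + (i + 1) * l := by exact_mod_cast ha.2.2
      linarith
  have h5 : (h : ℝ) + i * l + μ * Real.log X - ((h : ℝ) + i * l) = μ * Real.log X := by ring
  rw [h5] at h2
  linarith

/-- all the integers of the block `i` after `n` have a prime factor at most `X` -/
def Fre (X l n i : ℕ) : Prop :=
  ∀ m : ℕ, n + i * l < m → m ≤ n + (i + 1) * l → ∃ p : ℕ, p.Prime ∧ p ≤ X ∧ p ∣ m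

theorem Fre_of {X b N l n i h : ℕ} (hHX : HH X ≤ X) (hN : h + (i + 1) * l ≤ N)
    (hn : n % Wm X = b)
    (hB : ∀ a ∈ Bk X b N h l i, ¬ Rf X (n + a)) : Fre X l (n + h) i := by
  intro m hm1 hm2
  obtain ⟨a, rfl⟩ : ∃ a, m = n + a := ⟨m - n, by omega⟩
  by_cases hc : (b + a).Coprime (Wm X)
  · have haB : a ∈ Bk X b N h l i := by
      unfold Bk
      rw [mem_filter, mem_BB]
      refine ⟨⟨by omega, by omega, hc⟩, by omega, by omega⟩
    have h1 := hB a haB
    unfold Rf at h1
    push Not at h1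
    obtain ⟨p, hp, -, hpX, hpd⟩ := h1
    exact ⟨p, hp, hpX, hpd⟩
  · have h1 : Nat.gcd (n + a) (Wm X) ≠ 1 := by
      intro h2
      apply hc
      have h3 : (b + a) % Wm X = (n + a) % Wm X := by
        rw [Nat.add_mod n a, hn, Nat.add_mod b a]
        congr 2
        rw [← hn]
        exact Nat.mod_mod _ _
      unfold Nat.Coprime
      rw [Nat.gcd_comm (b + a), Nat.gcd_rec (Wm X) (b + a), h3, ← Nat.gcd_rec (Wm X) (n + a),
        Nat.gcd_comm]
      exact h2
    obtain ⟨p, hp, hpd⟩ := Nat.exists_prime_and_dvd h1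
    refine ⟨p, hp, ?_, hpd.trans (Nat.gcd_dvd_left _ _)⟩
    have h2 : p ∣ Wm X := hpd.trans (Nat.gcd_dvd_right _ _)
    unfold Wm primorial at h2
    rw [Prime.dvd_finsetProd_iff hp.prime] at h2
    obtain ⟨q, hq, hpq⟩ := h2
    rw [mem_filter, mem_range] at hq
    have := (Nat.prime_dvd_prime_iff_eq hp hq.2).1 hpq
    omega

open Classical in
/-- the basic theorem: in an interval of length `X`, located below a power of `X`, for almost all
`n` one of the first `k` blocks of length `l` after `n` consists of integers with a prime factor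
at most `X` -/
theorem basic (μ ε Dx : ℝ) (hμ : 0 < μ) (hε : 0 < ε) (hε1 : ε ≤ 1) (hDx : 0 ≤ Dx) :
    ∃ k : ℕ, 0 < k ∧ ∃ X₀ : ℕ, ∀ X : ℕ, X₀ ≤ X → ∀ x l : ℕ, (x : ℝ) + 2 * X ≤ (X : ℝ) ^ Dx →
      (l : ℝ) ≤ μ * Real.log X →
      (((Ico x (x + X)).filter (fun n => ¬ ∃ i < k, Fre X l n i)).card : ℝ) ≤ ε * X := by
  obtain ⟨Kq, Aq, k, hk, hA⟩ := almost (2 * μ) ε Dx (by linarith) hε hε1 hDx
  have hΛ : 0 < (k : ℝ) * μ + μ := by positivity
  obtain ⟨X1, hX1⟩ := hA (k * μ + μ) hΛ
  obtain ⟨X2, hX2⟩ := err_sum Kq Aq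
  obtain ⟨X3, hX3⟩ := Bk_card μ hμ (k * μ + μ) hΛ
  refine ⟨k, hk, X1 + X2 + X3 + 16, fun X hX x l hx hl => ?_⟩
  have hW := Wm_pos X
  have hWr : (0 : ℝ) < Wm X := by exact_mod_cast hW
  have hX16 : (16 : ℝ) ≤ X := by exact_mod_cast (by omega : 16 ≤ X)
  have hXr : (0 : ℝ) < X := by linarith
  have hL : 0 < Real.log X := Real.log_pos (by linarith)
  have hHX : HH X ≤ X := by
    have h1 : ((HH X : ℕ) : ℝ) ≤ X := by
      have h2 : Real.log X ≤ X := (Real.log_le_sub_one_of_pos hXr).trans (by linarith)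
      have h3 : Real.log (Real.log X) ≤ Real.log X :=
        (Real.log_le_sub_one_of_pos hL).trans (by linarith)
      have h4 : (0 : ℝ) ≤ Real.log (Real.log X) / 4 := by
        apply div_nonneg _ (by norm_num)
        apply Real.log_nonneg
        rw [Real.le_log_iff_exp_le hXr]
        have := Real.exp_one_lt_d9
        linarith
      have h5 : ((HH X : ℕ) : ℝ) ≤ Real.log (Real.log X) / 4 := by
        unfold HH
        exact Nat.floor_le h4
      linarith
    exact_mod_cast h1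
  -- one class
  have hcls : ∀ b < Wm X, (1 - ε) * ((X : ℝ) / Wm X) ≤
      ((((Ico x (x + X)).filter (fun n => n % Wm X = b)).filter
        (fun n => ∃ i < k, Fre X l n i)).card : ℝ) := by
    intro b hb
    have h1 := hX1 X (by omega) b none ((Ico x (x + X)).filter (fun n => n % Wm X = b))
      ((X : ℝ) / Wm X) (fun _ => 1) (by
        intro n hn
        rw [mem_filter, mem_Ico] at hn
        have : (n : ℝ) < x + X := by exact_mod_cast hn.1.2
        linarith) (by positivity)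
      (eqd2 x X b hb _ (by
        intro p hp
        rw [mem_filter, PX, mem_filter] at hp
        exact hp.1.2))
      (hX2 X (by omega))
      (fun i => Bk X b ⌊((k : ℝ) * μ + μ) * Real.log X⌋₊ 0 l i)
      (fun i => Bk_sub _ _ _ _ _ _)
      (by
        intro i
        apply hX3 X (by omega) b 0 l i hl
        have h2 : ((i : ℕ) : ℝ) ≤ k := by exact_mod_cast i.2.le
        have h3 : ((i : ℕ) : ℝ) * l ≤ k * (μ * Real.log X) := by
          apply mul_le_mul h2 hl (by positivity) (by positivity)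
        push_cast
        nlinarith)
      (fun i j hij => Bk_disj (fun h => hij (Fin.ext h)))
      (by intro a ha; simp at ha)
    refine h1.trans ?_
    apply Nat.cast_le.2
    apply card_le_card
    intro n hn
    rw [mem_filter] at hn ⊢
    refine ⟨hn.1, ?_⟩
    obtain ⟨i, hi⟩ := hn.2
    refine ⟨i, i.2, ?_⟩
    have hnb := (mem_filter.1 hn.1).2
    have := Fre_of (h := 0) (N := ⌊((k : ℝ) * μ + μ) * Real.log X⌋₊) (l := l) (i := i) hHX (by
      rw [zero_add]
      apply Nat.le_floor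
      push_cast
      have h2 : ((i : ℕ) : ℝ) + 1 ≤ k := by exact_mod_cast i.2
      have h3 : (((i : ℕ) : ℝ) + 1) * l ≤ k * (μ * Real.log X) := by
        apply mul_le_mul h2 hl (by positivity) (by positivity)
      nlinarith) hnb hi
    rwa [Nat.add_zero] at this
  -- sum over the classes
  have hfib : ((Ico x (x + X)).filter (fun n => ∃ i < k, Fre X l n i)).card =
      ∑ b ∈ range (Wm X), (((Ico x (x + X)).filter (fun n => n % Wm X = b)).filter
        (fun n => ∃ i < k, Fre X l n i)).card := by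
    rw [card_eq_sum_card_fiberwise (f := fun n => n % Wm X) (t := range (Wm X))]
    · refine sum_congr rfl fun b _ => ?_
      congr 1
      ext n
      simp only [mem_filter]
      tauto
    · intro n _
      simp only [coe_range, Set.mem_Iio]
      exact Nat.mod_lt _ hW
  have hgood : (1 - ε) * X ≤
      (((Ico x (x + X)).filter (fun n => ∃ i < k, Fre X l n i)).card : ℝ) := by
    rw [hfib]
    push_cast
    calc (1 - ε) * X = ∑ b ∈ range (Wm X), (1 - ε) * ((X : ℝ) / Wm X) := by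
          rw [sum_const, card_range, nsmul_eq_mul]
          field_simp
      _ ≤ _ := sum_le_sum fun b hb => hcls b (mem_range.1 hb)
  have htot := card_filter_add_card_filter_not (s := Ico x (x + X)) (fun n => ∃ i < k, Fre X l n i)
  rw [Nat.card_Ico, Nat.add_sub_cancel_left] at htot
  have htot' : (((Ico x (x + X)).filter (fun n => ∃ i < k, Fre X l n i)).card : ℝ) +
      (((Ico x (x + X)).filter (fun n => ¬ ∃ i < k, Fre X l n i)).card : ℝ) = X := by
    exact_mod_cast htot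
  linarith

end Pool.Agent.R526.AA
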