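import Pool.Agent.R526.AA.Prm

/-!
Long gaps near almost all primes: the sequence of gaps between consecutive primes.
-/

set_option autoImplicit false

open Finset Filter Topology

namespace Pool.Agent.R526.AA

open Pool.Agent.H361R2.PP (Pr)

/-- the `j`-th prime, `pr 0 = 2` -/
noncomputable def pr (j : ℕ) : ℕ := Nat.nth Nat.Prime j

theorem pr_prime (j : ℕ) : (pr j).Prime := Nat.prime_nth_prime j

theorem pr_mono : StrictMono pr := Nat.nth_strictMono Nat.infinite_setOfPred_prime

theorem pr_count {p : ℕ} (hp : p.Prime) : pr (Nat.count Nat.Prime p) = p := Nat.nth_count hp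

theorem count_pr (j : ℕ) : Nat.count Nat.Prime (pr j) = j :=
  Nat.count_nth_of_infinite Nat.infinite_setOfPred_prime j

/-- none of the `J` gaps from the one with index `j` on is longer than `lam` times the logarithm -/
def NoLong (lam : ℝ) (J j : ℕ) : Prop :=
  ∀ r < J, (pr (j + r + 1) : ℝ) - pr (j + r) ≤ lam * Real.log (pr (j + r))

/-- from a free block to a long gap -/
theorem gap_of_free {X l p k i J j : ℕ} (hp : pr j = p) (hX : X < p) (hi : i < k)
    (hf : Fre X l p i) (hJ : ((Icc 1 (k * l)).filter (fun h => (p + h).Prime)).card < J) :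
    ∃ r < J, pr (j + r) ≤ p + i * l ∧ p + (i + 1) * l < pr (j + r + 1) := by
  set c := Nat.count Nat.Prime (p + i * l + 1) with hc
  have hcj : j < c := by
    have h1 : Nat.count Nat.Prime (p + 1) ≤ c := Nat.count_monotone _ (by omega)
    rw [Nat.count_succ, if_pos (hp ▸ pr_prime j), ← hp, count_pr] at h1
    omega
  obtain ⟨r, hr⟩ : ∃ r, c = j + r + 1 := ⟨c - j - 1, by omega⟩
  have h1 : pr (j + r) ≤ p + i * l := by
    have hjr : j + r < Nat.count Nat.Prime (p + i * l + 1) := by rw [← hc]; omega
    have : Nat.nth Nat.Prime (j + r) < p + i * l + 1 := Nat.nth_lt_of_lt_count hjr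
    unfold pr
    omega
  have h2 : p + i * l < pr (j + r + 1) := by
    have hjr : Nat.count Nat.Prime (p + i * l + 1) ≤ j + r + 1 := by rw [← hc]; omega
    have : p + i * l + 1 ≤ Nat.nth Nat.Prime (j + r + 1) :=
      (Nat.count_le_iff_le_nth Nat.infinite_setOfPred_prime).1 hjr
    unfold pr
    omega
  refine ⟨r, ?_, h1, ?_⟩
  · -- counting
    refine lt_of_le_of_lt ?_ hJ
    have h3 : r = ((range r).image (fun s => pr (j + s + 1) - p)).card := by
      rw [card_image_of_injOn, card_range]
      intro a _ b _ hab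
      simp only at hab
      have ha : p < pr (j + a + 1) := by rw [← hp]; exact pr_mono (by omega)
      have hb : p < pr (j + b + 1) := by rw [← hp]; exact pr_mono (by omega)
      have : pr (j + a + 1) = pr (j + b + 1) := by omega
      have := pr_mono.injective this
      omega
    rw [h3]
    apply card_le_card
    intro h hh
    rw [mem_image] at hh
    obtain ⟨s, hs, rfl⟩ := hh
    rw [mem_range] at hs
    have ha : p < pr (j + s + 1) := by rw [← hp]; exact pr_mono (by omega)
    have hb : pr (j + s + 1) ≤ p + i * l :=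
      le_trans (pr_mono.monotone (by omega)) h1
    have hc2 : i * l ≤ k * l := Nat.mul_le_mul_right _ hi.le
    rw [mem_filter, mem_Icc]
    refine ⟨⟨by omega, by omega⟩, ?_⟩
    have : p + (pr (j + s + 1) - p) = pr (j + s + 1) := by omega
    rw [this]
    exact pr_prime _
  · by_contra hcon
    push Not at hcon
    obtain ⟨q, hq, hqX, hqd⟩ := hf (pr (j + r + 1)) h2 hcon
    rcases (Nat.dvd_prime (pr_prime _)).1 hqd with h5 | h5
    · exact hq.one_lt.ne' h5
    · have : i * l ≥ 0 := Nat.zero_le _
      omega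

open Classical in
/-- a dyadic range of indices -/
theorem dyadic (lam ε : ℝ) (hlam : 0 < lam) (hε : 0 < ε) (hε1 : ε ≤ 1) :
    ∃ J : ℕ, 0 < J ∧ ∃ X₀ : ℕ, ∀ X : ℕ, X₀ ≤ X →
      (((SQ X).filter (fun n => NoLong lam J (Nat.count Nat.Prime (n + 1)))).card : ℝ) ≤
        ε * Pr X := by
  obtain ⟨k, hk, X1, h1⟩ := basic_prime (2 * lam + 1) (ε / 2) (by linarith) (by linarith)
    (by linarith)
  have hk0 : (0 : ℝ) < k := by exact_mod_cast hk
  obtain ⟨J, hJ, X2, h2⟩ := few_clusters (k * (2 * lam + 1)) (ε / 2) (by positivity) (by linarith)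
  have e2 := Pool.Agent.H862R2.PPSm5.logs_small (k * (2 * lam + 1))
  obtain ⟨X3, h3⟩ := Filter.eventually_atTop.1 e2
  refine ⟨J, hJ, X1 + X2 + X3 + 16, fun X hX => ?_⟩
  have hX16 : (16 : ℝ) ≤ X := by exact_mod_cast (by omega : 16 ≤ X)
  have hXr : (0 : ℝ) < X := by linarith
  have hL : 1 ≤ Real.log X := by
    rw [Real.le_log_iff_exp_le hXr]
    have := Real.exp_one_lt_d9
    linarith
  obtain ⟨l, hl⟩ : ∃ l : ℕ, l = ⌈2 * lam * Real.log X⌉₊ := ⟨_, rfl⟩
  have hl1 : 2 * lam * Real.log X ≤ l := by rw [hl]; exact Nat.le_ceil _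
  have hl2 : (l : ℝ) ≤ (2 * lam + 1) * Real.log X := by
    have := Nat.ceil_lt_add_one (show 0 ≤ 2 * lam * Real.log X by positivity)
    rw [hl]
    linarith
  have a1 := h1 X (by omega) l hl2
  have a2 := h2 X (by omega) (k * l) (by
    push_cast
    calc (k : ℝ) * l ≤ k * ((2 * lam + 1) * Real.log X) := by gcongr
      _ = _ := by ring)
  have hkl : ((k * l : ℕ) : ℝ) ≤ X := by
    push_cast
    calc (k : ℝ) * l ≤ k * ((2 * lam + 1) * Real.log X) := by gcongr
      _ = k * (2 * lam + 1) * Real.log X := by ring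
      _ ≤ X := h3 X (by omega)
  have hklX : k * l ≤ X := by exact_mod_cast hkl
  have hsub : (SQ X).filter (fun n => NoLong lam J (Nat.count Nat.Prime (n + 1))) ⊆
      (SQ X).filter (fun n => ¬ ∃ i < k, Fre X l (n + 1) i) ∪
        (SQ X).filter (fun n => J ≤ Nx (k * l) n) := by
    intro n hn
    rw [mem_filter] at hn
    rw [mem_union, mem_filter, mem_filter]
    by_contra hcon
    push Not at hcon
    obtain ⟨hA, hB⟩ := hcon
    obtain ⟨i, hi, hf⟩ := hA hn.1
    have hB' := hB hn.1
    have hnS := hn.1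
    unfold SQ at hnS
    rw [mem_filter, mem_Ico] at hnS
    obtain ⟨r, hr, hr1, hr2⟩ := gap_of_free (j := Nat.count Nat.Prime (n + 1)) (p := n + 1)
      (pr_count hnS.2) (by omega) hi hf hB'
    have h5 := hn.2 r hr
    set q := pr (Nat.count Nat.Prime (n + 1) + r) with hq
    have hil : (i + 1) * l ≤ k * l := Nat.mul_le_mul_right _ hi
    have hil2 : i * l ≤ k * l := Nat.mul_le_mul_right _ hi.le
    have hq4 : (q : ℝ) ≤ X * X := by
      have h6 : q ≤ 4 * X := by omega
      have h7 : (q : ℝ) ≤ 4 * X := by exact_mod_cast h6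
      nlinarith
    have hq0 : (0 : ℝ) < q := by exact_mod_cast (pr_prime _).pos
    have hlq : Real.log q ≤ 2 * Real.log X := by
      calc Real.log q ≤ Real.log ((X : ℝ) * X) := Real.log_le_log hq0 hq4
        _ = 2 * Real.log X := by rw [Real.log_mul hXr.ne' hXr.ne']; ring
    have h8 : (q : ℝ) + l < pr (Nat.count Nat.Prime (n + 1) + r + 1) := by
      have h9 : q + l < pr (Nat.count Nat.Prime (n + 1) + r + 1) := by
        have : (i + 1) * l = i * l + l := by ring
        omega
      exact_mod_cast h9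
    have h10 : lam * Real.log q ≤ 2 * lam * Real.log X := by nlinarith
    linarith
  have hcard : (((SQ X).filter (fun n => NoLong lam J (Nat.count Nat.Prime (n + 1)))).card : ℝ) ≤
      (((SQ X).filter (fun n => ¬ ∃ i < k, Fre X l (n + 1) i)).card : ℝ) +
        (((SQ X).filter (fun n => J ≤ Nx (k * l) n)).card : ℝ) := by
    exact_mod_cast (card_le_card hsub).trans (card_union_le _ _)
  linarith

/-- the primes up to `2X` are at most a constant times those up to `X` -/
theorem pi_double : ∃ C : ℕ, 0 < C ∧ ∀ X : ℕ, 2 ≤ X →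
    Nat.primeCounting (2 * X) ≤ C * Nat.primeCounting X := by
  have hpi := Pool.Agent.Helper923.PNT.pi_tendsto
  have t1 : Tendsto (fun X : ℕ => (Nat.primeCounting X : ℝ) * Real.log X / X) atTop (𝓝 1) := by
    have := hpi.comp tendsto_natCast_atTop_atTop
    refine this.congr fun X => ?_
    simp only [Function.comp_apply, Nat.floor_natCast]
  have hX2 : Tendsto (fun X : ℕ => (2 : ℝ) * X) atTop atTop :=
    tendsto_natCast_atTop_atTop.const_mul_atTop (by norm_num)
  have t2 : Tendsto (fun X : ℕ => (Nat.primeCounting (2 * X) : ℝ) * Real.log (2 * X) / (2 * X))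
      atTop (𝓝 1) := by
    have := hpi.comp hX2
    refine this.congr fun X => ?_
    have h : ⌊(2 : ℝ) * X⌋₊ = 2 * X := by
      have : (2 : ℝ) * X = ((2 * X : ℕ) : ℝ) := by push_cast; ring
      rw [this, Nat.floor_natCast]
    simp only [Function.comp_apply, h]
  have e1 := t1.eventually_const_le (show (1 / 2 : ℝ) < 1 by norm_num)
  have e2 := t2.eventually_le_const (show (1 : ℝ) < 2 by norm_num)
  obtain ⟨X₀, h0⟩ := Filter.eventually_atTop.1 (e1.and e2)
  refine ⟨8 + 2 * X₀ + 1, by omega, fun X hX => ?_⟩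
  have hpos : 1 ≤ Nat.primeCounting X := by
    have h1 : Nat.primeCounting 2 ≤ Nat.primeCounting X := Nat.monotone_primeCounting hX
    have h2 : Nat.primeCounting 2 = 1 := by decide
    omega
  rcases Nat.lt_or_ge X X₀ with h | h
  · have h1 : Nat.primeCounting (2 * X) ≤ 2 * X := by
      unfold Nat.primeCounting Nat.primeCounting'
      have h3 : Nat.count Nat.Prime (2 * X + 1) = Nat.count Nat.Prime (2 * X + 1) := rfl
      have h4 : Nat.count Nat.Prime (2 * X + 1) ≤ 2 * X := by
        rw [Nat.add_comm, Nat.count_add]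
        have h5 : Nat.count Nat.Prime 1 = 0 := by decide
        rw [h5, Nat.zero_add]
        exact Nat.count_le _
      exact h4
    nlinarith
  · obtain ⟨k1, k2⟩ := h0 X h
    have hXr : (2 : ℝ) ≤ X := by exact_mod_cast hX
    have hL : 0 < Real.log X := Real.log_pos (by linarith)
    have hL2 : Real.log X ≤ Real.log (2 * X) := Real.log_le_log (by linarith) (by linarith)
    rw [div_le_iff₀ (by linarith)] at k2
    rw [le_div_iff₀ (by linarith)] at k1
    have h3 : (Nat.primeCounting (2 * X) : ℝ) * Real.log X ≤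
        (8 * Nat.primeCounting X : ℝ) * Real.log X := by
      have h4 : (Nat.primeCounting (2 * X) : ℝ) * Real.log X ≤
        (Nat.primeCounting (2 * X) : ℝ) * Real.log (2 * X) :=
        mul_le_mul_of_nonneg_left hL2 (Nat.cast_nonneg _)
      nlinarith
    have h5 := le_of_mul_le_mul_right h3 hL
    have h6 : Nat.primeCounting (2 * X) ≤ 8 * Nat.primeCounting X := by exact_mod_cast h5
    nlinarith

theorem SQ_eq_pi (X : ℕ) (hX : 2 ≤ X) : (SQ X).card + Nat.primeCounting X =
    Nat.primeCounting (2 * X) := by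
  have h1 : (SQ X).card = ((Ioc X (2 * X)).filter Nat.Prime).card := by
    unfold SQ
    apply card_bij (fun n _ => n + 1)
    · intro n hn
      rw [mem_filter, mem_Ico] at hn
      rw [mem_filter, mem_Ioc]
      exact ⟨⟨by omega, by omega⟩, hn.2⟩
    · intro a _ b _ h
      omega
    · intro p hp
      rw [mem_filter, mem_Ioc] at hp
      refine ⟨p - 1, ?_, by omega⟩
      rw [mem_filter, mem_Ico]
      have : p - 1 + 1 = p := by omega
      rw [this]
      exact ⟨⟨by omega, by omega⟩, hp.2⟩
  rw [h1]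
  have h2 : ∀ n : ℕ, Nat.primeCounting n = ((Ioc 0 n).filter Nat.Prime).card := by
    intro n
    unfold Nat.primeCounting Nat.primeCounting'
    rw [Nat.count_eq_card_filter_range]
    congr 1
    ext p
    rw [mem_filter, mem_filter, mem_range, mem_Ioc]
    constructor
    · rintro ⟨ha, hb⟩
      exact ⟨⟨hb.pos, by omega⟩, hb⟩
    · rintro ⟨ha, hb⟩
      exact ⟨by omega, hb⟩
  rw [h2 X, h2 (2 * X), ← card_union_of_disjoint]
  · congr 1
    rw [← filter_union]
    congr 1
    ext p
    rw [mem_union, mem_Ioc, mem_Ioc, mem_Ioc]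
    omega
  · apply disjoint_filter_filter
    rw [disjoint_left]
    intro p hp hq
    rw [mem_Ioc] at hp hq
    omega

end Pool.Agent.R526.AA
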