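import Pool.Agent.R526.AA.Seq

/-!
Long gaps near almost all primes: all indices.
-/

set_option autoImplicit false

open Finset Filter Topology

namespace Pool.Agent.R526.AA

open Pool.Agent.H361R2.PP (Pr)

theorem lt_pi_iff (j X : ℕ) : j < Nat.primeCounting X ↔ pr j ≤ X := by
  unfold Nat.primeCounting Nat.primeCounting' pr
  constructor
  · intro h
    have h1 : Nat.nth Nat.Prime j < X + 1 := Nat.nth_lt_of_lt_count h
    omega
  · intro h
    by_contra hcon
    push Not at hcon
    have h1 : X + 1 ≤ Nat.nth Nat.Prime j :=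
      (Nat.count_le_iff_le_nth Nat.infinite_setOfPred_prime).1 hcon
    omega

theorem Pr_le_SQ {i : ℕ} (hi : 2 ≤ i) : Pr (2 ^ i) ≤ ((SQ (2 ^ i)).card : ℝ) := by
  unfold Pr SQ
  apply Nat.cast_le.2
  have hnp : ¬ (2 ^ i).Prime := Nat.Prime.not_prime_pow hi
  apply card_le_card_of_injOn (fun p => p - 1)
  · intro p hp
    rw [mem_coe, mem_filter, mem_Ico] at hp
    have h1 : p ≠ 2 ^ i := by
      rintro rfl
      exact hnp hp.2
    change p - 1 ∈ _
    rw [mem_coe, mem_filter, mem_Ico]
    have h2 : p - 1 + 1 = p := by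
      have := hp.2.pos
      omega
    rw [h2]
    exact ⟨⟨by omega, by omega⟩, hp.2⟩
  · intro a ha b hb h
    rw [mem_coe, mem_filter] at ha hb
    have := ha.2.pos
    have := hb.2.pos
    simp only at h
    omega

open Classical in
/-- number of bad indices of primes up to `X` -/
noncomputable def bd (lam : ℝ) (J X : ℕ) : ℕ :=
  ((range (Nat.primeCounting X)).filter (fun j => NoLong lam J j)).card

open Classical in
theorem bd_step (lam : ℝ) (J X : ℕ) (hX : 1 ≤ X) : bd lam J (2 * X) ≤ bd lam J X +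
    ((SQ X).filter (fun n => NoLong lam J (Nat.count Nat.Prime (n + 1)))).card := by
  unfold bd
  have hm : Nat.primeCounting X ≤ Nat.primeCounting (2 * X) :=
    Nat.monotone_primeCounting (by omega)
  have h1 : (range (Nat.primeCounting (2 * X))).filter (fun j => NoLong lam J j) ⊆
      (range (Nat.primeCounting X)).filter (fun j => NoLong lam J j) ∪
      ((SQ X).filter (fun n => NoLong lam J (Nat.count Nat.Prime (n + 1)))).image
        (fun n => Nat.count Nat.Prime (n + 1)) := by
    intro j hj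
    rw [mem_filter, mem_range] at hj
    rw [mem_union, mem_filter, mem_range]
    by_cases h : j < Nat.primeCounting X
    · left
      exact ⟨h, hj.2⟩
    · right
      rw [lt_pi_iff] at h
      have h2 := (lt_pi_iff j (2 * X)).1 hj.1
      have h3 : pr j - 1 + 1 = pr j := by
        have := (pr_prime j).pos
        omega
      rw [mem_image]
      refine ⟨pr j - 1, ?_, ?_⟩
      · unfold SQ
        rw [mem_filter, mem_filter, mem_Ico, h3, count_pr]
        exact ⟨⟨⟨by omega, by omega⟩, pr_prime j⟩, hj.2⟩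
      · rw [h3, count_pr]
  refine (card_le_card h1).trans ((card_union_le _ _).trans ?_)
  exact Nat.add_le_add_left card_image_le _

open Classical in
theorem bd_pow (lam ε : ℝ) (hlam : 0 < lam) (hε : 0 < ε) (hε1 : ε ≤ 1) :
    ∃ J : ℕ, 0 < J ∧ ∃ C : ℕ, ∀ m : ℕ, (bd lam J (2 ^ m) : ℝ) ≤
      C + ε * Nat.primeCounting (2 ^ m) := by
  obtain ⟨J, hJ, X₀, h0⟩ := dyadic lam ε hlam hε hε1
  refine ⟨J, hJ, Nat.primeCounting (2 ^ (X₀ + 2)), fun m => ?_⟩
  have hbase : ∀ m ≤ X₀ + 2, (bd lam J (2 ^ m) : ℝ) ≤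
      Nat.primeCounting (2 ^ (X₀ + 2)) + ε * Nat.primeCounting (2 ^ m) := by
    intro m hm
    have h1 : bd lam J (2 ^ m) ≤ Nat.primeCounting (2 ^ (X₀ + 2)) := by
      unfold bd
      refine (card_filter_le _ _).trans ?_
      rw [card_range]
      exact Nat.monotone_primeCounting (Nat.pow_le_pow_right (by norm_num) hm)
    have h2 : (bd lam J (2 ^ m) : ℝ) ≤ Nat.primeCounting (2 ^ (X₀ + 2)) := by exact_mod_cast h1
    have : 0 ≤ ε * Nat.primeCounting (2 ^ m) := by positivity
    linarith
  rcases le_or_gt m (X₀ + 2) with h | h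
  · exact hbase m h
  · obtain ⟨d, rfl⟩ : ∃ d, m = X₀ + 2 + d := ⟨m - (X₀ + 2), by omega⟩
    clear h
    induction d with
    | zero => exact hbase _ (by omega)
    | succ d ih =>
      have h1 := bd_step lam J (2 ^ (X₀ + 2 + d)) Nat.one_le_two_pow
      have h2 := h0 (2 ^ (X₀ + 2 + d)) (by
        have : X₀ + 2 + d < 2 ^ (X₀ + 2 + d) := Nat.lt_two_pow_self
        omega)
      have h3 := Pr_le_SQ (i := X₀ + 2 + d) (by omega)
      have h4 := SQ_eq_pi (2 ^ (X₀ + 2 + d)) (by
        calc 2 = 2 ^ 1 := rfl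
          _ ≤ 2 ^ (X₀ + 2 + d) := Nat.pow_le_pow_right (by norm_num) (by omega))
      have h5 : 2 ^ (X₀ + 2 + (d + 1)) = 2 * 2 ^ (X₀ + 2 + d) := by ring
      rw [h5]
      have h6 : (bd lam J (2 * 2 ^ (X₀ + 2 + d)) : ℝ) ≤ bd lam J (2 ^ (X₀ + 2 + d)) +
          (((SQ (2 ^ (X₀ + 2 + d))).filter
            (fun n => NoLong lam J (Nat.count Nat.Prime (n + 1)))).card : ℝ) := by
        exact_mod_cast h1
      have h7 : ((SQ (2 ^ (X₀ + 2 + d))).card : ℝ) + Nat.primeCounting (2 ^ (X₀ + 2 + d)) =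
          Nat.primeCounting (2 * 2 ^ (X₀ + 2 + d)) := by exact_mod_cast h4
      have h8 : ε * Pr (2 ^ (X₀ + 2 + d)) ≤ ε * ((SQ (2 ^ (X₀ + 2 + d))).card : ℝ) :=
        mul_le_mul_of_nonneg_left h3 hε.le
      rw [← h7, mul_add]
      linarith

open Classical in
/-- almost all indices -/
theorem bad_indices (lam ε : ℝ) (hlam : 0 < lam) (hε : 0 < ε) : ∃ J : ℕ, 0 < J ∧ ∃ N₀ : ℕ,
    ∀ N : ℕ, N₀ ≤ N → (((range N).filter (fun j => NoLong lam J j)).card : ℝ) ≤ ε * N := by
  obtain ⟨C, hC, hCd⟩ := pi_double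
  have hC0 : (0 : ℝ) < C := by exact_mod_cast hC
  have hC1 : (1 : ℝ) ≤ C := by exact_mod_cast hC
  obtain ⟨J, hJ, C', h1⟩ := bd_pow lam (min ε 1 / (4 * C)) hlam (by positivity) (by
    rw [div_le_one (by positivity)]
    have := min_le_right ε 1
    linarith)
  obtain ⟨N₀, hN₀⟩ := exists_nat_ge (2 * (C' : ℝ) / ε)
  refine ⟨J, hJ, N₀ + 2, fun N hN => ?_⟩
  have hNr : (1 : ℝ) ≤ N := by exact_mod_cast (by omega : 1 ≤ N)
  have hp3 : 2 < pr N := by
    have h2 : pr 0 = 2 := Nat.nth_prime_zero_eq_two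
    have h3 : pr 0 < pr N := pr_mono (by omega)
    omega
  set m := Nat.log 2 (pr N) with hm
  have hm1 : 2 ^ m ≤ pr N := Nat.pow_log_le_self 2 (by omega)
  have hm2 : pr N < 2 ^ (m + 1) := Nat.lt_pow_succ_log_self (by norm_num) _
  have hm3 : 1 ≤ m := by
    rw [hm]
    exact Nat.log_pos (by norm_num) (by omega)
  have h2 := h1 (m + 1)
  have h3 : (((range N).filter (fun j => NoLong lam J j)).card : ℝ) ≤ bd lam J (2 ^ (m + 1)) := by
    unfold bd
    apply Nat.cast_le.2
    apply card_le_card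
    apply filter_subset_filter
    intro j hj
    rw [mem_range] at hj ⊢
    rw [lt_pi_iff]
    have := pr_mono hj
    omega
  have h4 : Nat.primeCounting (2 ^ (m + 1)) ≤ C * Nat.primeCounting (2 ^ m) := by
    have := hCd (2 ^ m) (by
      calc 2 = 2 ^ 1 := rfl
        _ ≤ 2 ^ m := Nat.pow_le_pow_right (by norm_num) hm3)
    have h5 : 2 ^ (m + 1) = 2 * 2 ^ m := by ring
    rw [h5]
    exact this
  have h5 : Nat.primeCounting (2 ^ m) ≤ N + 1 := by
    have h6 : Nat.primeCounting (2 ^ m) ≤ Nat.primeCounting (pr N) :=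
      Nat.monotone_primeCounting hm1
    have h7 : Nat.primeCounting (pr N) = N + 1 := by
      unfold Nat.primeCounting Nat.primeCounting'
      rw [Nat.count_succ, if_pos (pr_prime N), count_pr]
    omega
  have h6 : (Nat.primeCounting (2 ^ (m + 1)) : ℝ) ≤ C * ((N : ℝ) + 1) := by
    have : Nat.primeCounting (2 ^ (m + 1)) ≤ C * (N + 1) :=
      h4.trans (Nat.mul_le_mul_left _ h5)
    exact_mod_cast this
  have h7 : min ε 1 / (4 * C) * (Nat.primeCounting (2 ^ (m + 1)) : ℝ) ≤
      min ε 1 / (4 * C) * (C * ((N : ℝ) + 1)) := mul_le_mul_of_nonneg_left h6 (by positivity)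
  have h8 : min ε 1 / (4 * C) * (C * ((N : ℝ) + 1)) = min ε 1 / 4 * (N + 1) := by
    field_simp
  have h9 : min ε 1 ≤ ε := min_le_left _ _
  have h10 : 0 < min ε 1 := lt_min hε one_pos
  have h11 : (C' : ℝ) ≤ ε / 2 * N := by
    have h12 : 2 * (C' : ℝ) / ε ≤ N := by
      have : (N₀ : ℝ) ≤ N := by exact_mod_cast (by omega : N₀ ≤ N)
      linarith
    rw [div_le_iff₀ hε] at h12
    linarith
  nlinarith

open Classical in
/-- a positive proportion of the gaps near almost all indices -/
theorem sequence_gaps (lam ε : ℝ) (hlam : 0 < lam) (hε : 0 < ε) :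
    ∃ c : ℝ, 0 < c ∧ ∃ J₀ : ℕ, ∀ J : ℕ, J₀ ≤ J → ∃ N₀ : ℕ, ∀ N : ℕ, N₀ ≤ N →
      (((range N).filter (fun j =>
        (((range J).filter (fun r => lam * Real.log (Nat.nth Nat.Prime (j + r)) <
          (Nat.nth Nat.Prime (j + r + 1) : ℝ) - Nat.nth Nat.Prime (j + r))).card : ℝ) <
            c * J)).card : ℝ) ≤ ε * N := by
  obtain ⟨k, hk, N1, h1⟩ := bad_indices lam (ε / 4) hlam (by linarith)
  have hk0 : (0 : ℝ) < k := by exact_mod_cast hk
  refine ⟨1 / (4 * k), by positivity, 2 * k, fun J hJ => ⟨N1 + J + 1, fun N hN => ?_⟩⟩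
  set Q : ℕ → Prop := fun i => lam * Real.log (Nat.nth Nat.Prime i) <
          (Nat.nth Nat.Prime (i + 1) : ℝ) - Nat.nth Nat.Prime i with hQ
  set m := J / k with hm
  have hmk : m * k ≤ J := Nat.div_mul_le_self _ _
  have hm2 : 2 ≤ m := by
    rw [hm, Nat.le_div_iff_mul_le hk]
    exact hJ
  have hmK : (J : ℝ) ≤ 2 * m * k := by
    have h1 : J < (m + 1) * k := by
      rw [hm, mul_comm]
      exact Nat.lt_mul_div_succ J hk
    have h2 : J ≤ 2 * m * k := by nlinarith
    exact_mod_cast h2
  set Bd := (range N).filter (fun j =>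
    (((range J).filter (fun r => Q (j + r))).card : ℝ) < 1 / (4 * k) * J) with hBd
  have hm0' : (0 : ℝ) < m := by exact_mod_cast (by omega : 0 < m)
  have hno : ∀ j, ¬ NoLong lam k j ↔ ∃ r < k, Q (j + r) := by
    intro j
    unfold NoLong
    rw [hQ]
    push Not
    rfl
  have hgr : ∀ j, ((range m).filter (fun q => ¬ NoLong lam k (j + q * k))).card ≤
      ((range J).filter (fun r => Q (j + r))).card := by
    intro j
    have hch : ∀ q ∈ (range m).filter (fun q => ¬ NoLong lam k (j + q * k)),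
        ∃ r, r < k ∧ Q (j + q * k + r) := by
      intro q hq
      exact (hno _).1 (mem_filter.1 hq).2
    choose! f hf1 hf2 using hch
    apply card_le_card_of_injOn (fun q => q * k + f q)
    · intro q hq
      rw [mem_coe] at hq
      have hqm := mem_range.1 (mem_filter.1 hq).1
      have a1 := hf1 q hq
      have a2 := hf2 q hq
      rw [Nat.add_assoc] at a2
      rw [mem_coe, mem_filter, mem_range]
      refine ⟨?_, a2⟩
      have h3 : (q + 1) * k ≤ m * k := Nat.mul_le_mul_right _ hqm
      have h4 : (q + 1) * k = q * k + k := by ring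
      change q * k + f q < J
      omega
    · intro q hq q' hq' h
      rw [mem_coe] at hq hq'
      have a1 := hf1 q hq
      have a2 := hf1 q' hq'
      have h3 : q * k + f q = q' * k + f q' := h
      have h4 : (q * k + f q) / k = q := by
        rw [Nat.mul_comm, Nat.mul_add_div hk, Nat.div_eq_of_lt a1, Nat.add_zero]
      have h5 : (q' * k + f q') / k = q' := by
        rw [Nat.mul_comm, Nat.mul_add_div hk, Nat.div_eq_of_lt a2, Nat.add_zero]
      rw [← h4, ← h5, h3]
  have a1 : ∀ j ∈ Bd, (m : ℝ) / 2 ≤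
      (((range m).filter (fun q => NoLong lam k (j + q * k))).card : ℝ) := by
    intro j hj
    have b2 := (mem_filter.1 hj).2
    have b3 := hgr j
    have b4 := card_filter_add_card_filter_not (s := range m)
      (fun q => NoLong lam k (j + q * k))
    rw [card_range] at b4
    have b5 : (((range m).filter (fun q => NoLong lam k (j + q * k))).card : ℝ) +
        (((range m).filter (fun q => ¬ NoLong lam k (j + q * k))).card : ℝ) = m := by
      exact_mod_cast b4
    have b6 : (((range m).filter (fun q => ¬ NoLong lam k (j + q * k))).card : ℝ) ≤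
        (((range J).filter (fun r => Q (j + r))).card : ℝ) := by exact_mod_cast b3
    have b7 : 1 / (4 * k) * (J : ℝ) ≤ m / 2 := by
      rw [div_mul_eq_mul_div, one_mul, div_le_iff₀ (by positivity)]
      linarith
    linarith
  have a2 : (Bd.card : ℝ) * (m / 2) ≤ ∑ j ∈ Bd,
      (((range m).filter (fun q => NoLong lam k (j + q * k))).card : ℝ) := by
    rw [← nsmul_eq_mul, ← sum_const]
    exact sum_le_sum a1
  have a3 : ∑ j ∈ Bd, (((range m).filter (fun q => NoLong lam k (j + q * k))).card : ℝ) ≤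
      ∑ q ∈ range m, (((range N).filter (fun j => NoLong lam k (j + q * k))).card : ℝ) := by
    calc ∑ j ∈ Bd, (((range m).filter (fun q => NoLong lam k (j + q * k))).card : ℝ) ≤
        ∑ j ∈ range N, (((range m).filter (fun q => NoLong lam k (j + q * k))).card : ℝ) :=
          sum_le_sum_of_subset_of_nonneg (filter_subset _ _) (fun _ _ _ => Nat.cast_nonneg _)
      _ = _ := by
          simp only [card_filter, Nat.cast_sum]
          rw [sum_comm]
  have a4 : ∀ q ∈ range m, (((range N).filter (fun j => NoLong lam k (j + q * k))).card : ℝ) ≤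
      ε / 2 * N := by
    intro q hq
    rw [mem_range] at hq
    have hqk : q * k ≤ J := (Nat.mul_le_mul_right k hq.le).trans hmk
    have b1 := h1 (N + q * k) (by omega)
    have b2 : (((range N).filter (fun j => NoLong lam k (j + q * k))).card : ℝ) ≤
        (((range (N + q * k)).filter (fun j => NoLong lam k j)).card : ℝ) := by
      apply Nat.cast_le.2
      apply card_le_card_of_injOn (fun j => j + q * k)
      · intro j hj
        rw [mem_coe, mem_filter, mem_range] at hj
        change j + q * k ∈ _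
        rw [mem_coe, mem_filter, mem_range]
        exact ⟨by omega, hj.2⟩
      · intro a _ b _ hab
        simp only at hab
        omega
    have b3 : ((N + q * k : ℕ) : ℝ) ≤ 2 * N := by
      have : N + q * k ≤ 2 * N := by omega
      exact_mod_cast this
    have b4 : ε / 4 * ((N + q * k : ℕ) : ℝ) ≤ ε / 4 * (2 * N) :=
      mul_le_mul_of_nonneg_left b3 (by positivity)
    linarith
  have a5 : (Bd.card : ℝ) * (m / 2) ≤ m * (ε / 2 * N) := by
    refine (a2.trans a3).trans ?_
    calc _ ≤ ∑ q ∈ range m, ε / 2 * (N : ℝ) := sum_le_sum a4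
      _ = m * (ε / 2 * N) := by rw [sum_const, card_range, nsmul_eq_mul]
  have a6 : (Bd.card : ℝ) * (m / 2) ≤ (ε * N) * (m / 2) := by linarith
  exact le_of_mul_le_mul_right a6 (by positivity)

end Pool.Agent.R526.AA
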