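import Pool.Agent.R526.AA.Core

/-!
Asymptotic second, fourth and cross moments for general sets of integers.
-/

set_option autoImplicit false

open Finset Filter Topology

namespace Pool.Agent.R526.AA

open Pool.Agent.H361R2.PP
open Pool.Agent.H410R2
open Pool.Agent.H862R2.PPSm5

/-- monotonicity in the constant -/
theorem kv_mono {K K' : ℕ} {V : ℝ} (hK1 : 1 ≤ K) (hK : K ≤ K') (hV : 0 < V) (hV1 : V ≤ 1) :
    ((K : ℝ) / V) ^ K ≤ ((K' : ℝ) / V) ^ K' := by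
  have hKr : (K : ℝ) ≤ K' := by exact_mod_cast hK
  have hK1 : (1 : ℝ) ≤ K' := by
    have : 1 ≤ K' := hK1.trans hK
    exact_mod_cast this
  have h1V : 1 ≤ (K' : ℝ) / V := by
    rw [le_div_iff₀ hV]; linarith
  calc ((K : ℝ) / V) ^ K ≤ ((K' : ℝ) / V) ^ K := by
        apply pow_le_pow_left₀ (by positivity)
        exact div_le_div_of_nonneg_right hKr hV.le
    _ ≤ ((K' : ℝ) / V) ^ K' := pow_le_pow_right₀ h1V hK

theorem smg (t : ℕ) (u : Fin t → ℝ) (κ θ s Dx : ℝ) (hu : ∀ τ, 0 < u τ)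
    (hsum : ∑ τ, u τ ≤ θ / 2) (hθ : 0 < θ) (hθ1 : θ ≤ 1 / 32) (hκ : 0 < κ) (hs : 0 < s)
    (hDx : 0 ≤ Dx) :
    ∃ Kq Aq : ℕ, ∃ δ₀ : ℝ, 0 < δ₀ ∧ δ₀ ≤ 1 / 8 ∧ ∀ δ : ℝ, 0 < δ → δ ≤ δ₀ →
    ∃ C : ℝ, 0 < C ∧ ∀ Λ : ℝ, 0 < Λ → ∃ X₀ : ℕ, ∀ X : ℕ, X₀ ≤ X → ∀ b0 : ℕ,
    ∀ D : Dat t u 1 δ X, (∀ a, D.cf a = -1) →
    ∀ (o : Option ℕ) (S : Finset ℕ) (Ω : ℝ) (Er : Finset ℕ → ℝ),
      (∀ n ∈ S, (n : ℝ) + X ≤ (X : ℝ) ^ Dx) → 0 ≤ Ω →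
      Eqd o ((PX X).filter (fun p : ℕ => (p : ℝ) ≤ (X : ℝ) ^ (1 / 2 : ℝ))) S Ω Er →
      ∑ D ∈ (PX X).powerset.filter
        (fun D : Finset ℕ => ∏ p ∈ D, (p : ℝ) ≤ (X : ℝ) ^ (1 / 2 - θ)),
        (Kq : ℝ) ^ D.card * Er D ≤ Ω / Real.log X ^ Aq →
      (∀ B ⊆ BB X b0 ⌊Λ * Real.log X⌋₊,
        (B.card : ℝ) ≤ κ * (Real.log X * (Nat.totient (Wm X) / Wm X)) →
        (∀ a ∈ o, 1 ≤ a ∧ (a : ℝ) ≤ Λ * Real.log X ∧ a ∉ B) →
        ∀ c : (Fin t → Option ℕ) → ℝ, (∀ σ, |c σ| ≤ 1) →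
          |∑ n ∈ S, AC.WW B c (xx D n) ^ 2 - Ω * ZZ D B c| ≤ s * Ω ∧
          (∀ a ∈ B, |∑ n ∈ S, (spec δ θ X a n * AC.WW (B.erase a) c (xx D n)) ^ 2 -
            Ω * (VV δ X * AC.GG (S1 δ θ X) * ZZ D (B.erase a) c)| ≤ s * (Ω * VV δ X)) ∧
          ∑ n ∈ S, AC.WW B c (xx D n) ^ 4 ≤ C * Ω) ∧
      (∀ B1 B2 : Finset ℕ, Disjoint B1 B2 → B1 ∪ B2 ⊆ BB X b0 ⌊Λ * Real.log X⌋₊ →
        ((B1 ∪ B2).card : ℝ) ≤ κ * (Real.log X * (Nat.totient (Wm X) / Wm X)) →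
        (∀ a ∈ o, 1 ≤ a ∧ (a : ℝ) ≤ Λ * Real.log X ∧ a ∉ B1 ∪ B2) →
          |∑ n ∈ S, (AC.WW B1 (fun _ => 1) (xx D n) * AC.WW B2 (fun _ => 1) (xx D n)) ^ 2 -
            Ω * (ZZ D B1 (fun _ => 1) * ZZ D B2 (fun _ => 1))| ≤ s * Ω) := by
  obtain ⟨Ka, hKa, ha4⟩ := sm4_body sm4_final t 1 1 le_rfl le_rfl
  obtain ⟨Kx, hKx, hx4⟩ := cbody t
  set K : ℕ := max Ka Kx with hKdef
  have hKaK : Ka ≤ K := le_max_left _ _
  have hKxK : Kx ≤ K := le_max_right _ _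
  have hK : 1 ≤ K := hKa.trans hKaK
  obtain ⟨Cm, hCm, hMer⟩ := Pool.Agent.H488R2.mer Pool.Agent.H325R2.wtx
  obtain ⟨Cg, hCg, hGbd⟩ := Pool.Agent.H488R2.gbd Pool.Agent.H325R2.wtx 1
  obtain ⟨cv, hcv, hcv1, hvv⟩ := vv_lower
  set M : ℕ := Cg + ⌈κ * Cm⌉₊ with hMdef
  have hM : 1 ≤ M := by omega
  have hMr : (1 : ℝ) ≤ M := by exact_mod_cast hM
  have hM0 : (0 : ℝ) < M := by linarith
  have hMC : κ * Cm ≤ M := by
    rw [hMdef]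
    push_cast
    have := Nat.le_ceil (κ * Cm)
    have h2 : (0 : ℝ) ≤ Cg := Nat.cast_nonneg Cg
    linarith
  obtain ⟨δ₀, hδ₀, hδ₀8, hδ⟩ := choose_delta K M θ (s / 3) 1 hK hM hθ (by positivity) one_pos
  refine ⟨K, 4 * (t + t) + 6, δ₀, hδ₀, hδ₀8, fun δ hδ0 hδle => ?_⟩
  obtain ⟨b, hKb, hδb, hb⟩ := hδ δ hδ0 hδle
  have hδ8 : δ ≤ 1 / 8 := hδle.trans hδ₀8
  have hδ1 : δ ≤ 1 := by linarith
  set V : ℝ := (δ / M) ^ M with hV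
  have hV0 : 0 < V := by positivity
  have hV1 : V ≤ 1 := by
    apply pow_le_one₀ (by positivity)
    rw [div_le_one hM0]
    linarith
  have hVinv : 1 / V = ((M : ℝ) / δ) ^ M := by
    rw [hV, div_pow, div_pow]
    field_simp
  obtain ⟨d, hd0, hd1, hd⟩ := choose_d K (1 * (K / V ^ K)) (s / 3)
    (by positivity) (by positivity)
  refine ⟨(K / V) ^ K * 2 ^ (4 * t * ⌊2 * Dx / δ⌋₊) * 2, by positivity, fun Λ hΛ => ?_⟩
  obtain ⟨X₁, h1⟩ := Pool.Agent.H804R2.PPSm2.sm2 (4 * t + 2) Λ d hΛ hd0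
  obtain ⟨X₂, h2⟩ := hMer δ hδ0 hδ1
  obtain ⟨X₃, h3⟩ := hGbd δ hδ0 hδ8
  obtain ⟨X₄, hw⟩ := Pool.Agent.H325R2.wtx.2 δ hδ0 hδ1
  have hev : ∀ᶠ X : ℕ in atTop, (max K 2 ≤ HH X) ∧ (Λ * Real.log X ≤ X) ∧
      (2 < (X : ℝ) ^ (δ / 2)) ∧
      (∀ (k J : ℕ), (k : ℝ) ≤ Λ * Real.log X → (J : ℝ) + 2 ≤ 4 * Real.log X →
      1 ≤ Real.log X ∧
      1 * (K / V ^ K) *
        (((k : ℝ) + 1) ^ (4 * (t + t) + 2) * (((J : ℝ) + 2) *
          (1 / Real.log X ^ (4 * (t + t) + 6)))) ≤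
        (s / 3 * cv) / Real.log X) ∧
      (∀ (k J : ℕ), (k : ℝ) ≤ Λ * Real.log X → (J : ℝ) + 2 ≤ 4 * Real.log X →
      1 ≤ Real.log X ∧
      1 * (((k : ℝ) + 1) ^ (4 * (t + t) + 2) * (((J : ℝ) + 2) *
        (1 / Real.log X ^ (4 * (t + t) + 6)))) ≤
        1 / Real.log X) := by
    have e1 := HH_tendsto.eventually_ge_atTop (max K 2)
    have e2 := logs_small Λ
    have e3 : ∀ᶠ X : ℕ in atTop, 2 < (X : ℝ) ^ (δ / 2) :=
      ((tendsto_rpow_atTop (by positivity : 0 < δ / 2)).comp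
        tendsto_natCast_atTop_atTop).eventually_gt_atTop 2
    have e4 := absorb (t + t) Λ (1 * (K / V ^ K)) (s / 3 * cv) hΛ (by positivity)
      (by positivity)
    have e5 := absorb (t + t) Λ 1 1 hΛ (by norm_num) one_pos
    filter_upwards [e1, e2, e3, e4, e5] with X a1 a2 a3 a4 a5
    exact ⟨a1, a2, a3, a4, a5⟩
  obtain ⟨X₈, h8⟩ := Filter.eventually_atTop.1 hev
  refine ⟨max 16 (max X₁ (max X₂ (max X₃ (max X₄ X₈)))), ?_⟩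
  intro X hX b0 D hcf o S Ω Er hS hΩ hEq hEs
  simp only [max_le_iff] at hX
  obtain ⟨hX16, hX1, hX2, hX3, hX4, hX8⟩ := hX
  obtain ⟨hHH, hΛX, hrp, hab, hab4⟩ := h8 X hX8
  obtain ⟨hw1, hw2, hw3⟩ := hw X hX4
  obtain ⟨hVV0, hVVC, _⟩ := h2 X hX2
  have hXr : (16 : ℝ) ≤ X := by exact_mod_cast hX16
  have hL0 : 0 < Real.log X := Real.log_pos (by linarith)
  have hKH : K ≤ HH X := (le_max_left _ _).trans hHH
  have h2H : 2 ≤ HH X := (le_max_right _ _).trans hHH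
  have hJ : 1 ≤ JJ δ X := by
    by_contra h
    have h0 : JJ δ X = 0 := by omega
    rw [h0] at hw2
    norm_num at hw2
    linarith
  have hJ4 : (JJ δ X : ℝ) + 2 ≤ 4 * Real.log X := JJ_le hδ1 hX16 hw1
  have hVVlow : cv / Real.log X ≤ VV δ X := hvv X δ hδ0 hδ1 hX16 h2H hw1 hw3
  have hVVn := vv_nonneg δ X
  have hVV1 := vv_le_one δ X
  have hPi : ∏ p ∈ P2 (JJ δ X) X, (1 + (1 : ℝ) / ((p : ℝ) - 1)) ≤ 1 / V := by
    have h10 := h3 X hX3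
    rw [Nat.cast_one] at h10
    refine h10.trans ?_
    rw [hVinv]
    have hCgr : (1 : ℝ) ≤ Cg := by exact_mod_cast hCg
    have h11 : (1 : ℝ) ≤ Cg / δ := by
      rw [le_div_iff₀ hδ0]
      linarith
    have h12 : (Cg : ℝ) / δ ≤ M / δ := by
      apply div_le_div_of_nonneg_right _ hδ0.le
      rw [hMdef]
      push_cast
      have : (0 : ℝ) ≤ (⌈κ * Cm⌉₊ : ℝ) := Nat.cast_nonneg _
      linarith
    calc ((Cg : ℝ) / δ) ^ Cg ≤ ((Cg : ℝ) / δ) ^ M := pow_le_pow_right₀ h11 (by omega)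
      _ ≤ ((M : ℝ) / δ) ^ M := pow_le_pow_left₀ (by positivity) h12 _
  have hBV : ∀ B : Finset ℕ, (B.card : ℝ) ≤ κ * (Real.log X * (Nat.totient (Wm X) / Wm X)) →
      (B.card : ℝ) * VV δ X ≤ 1 / V := by
    intro B hB
    have h10 : (B.card : ℝ) * VV δ X ≤
        κ * (Real.log X * (Nat.totient (Wm X) / Wm X)) * VV δ X :=
      mul_le_mul_of_nonneg_right hB hVVn
    have h11 : κ * (Real.log X * (Nat.totient (Wm X) / Wm X)) * VV δ X =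
        κ / δ * (VV δ X * ((Nat.totient (Wm X) : ℝ) / Wm X) * (δ * Real.log X)) := by
      field_simp
    have h12 : κ / δ * (VV δ X * ((Nat.totient (Wm X) : ℝ) / Wm X) * (δ * Real.log X)) ≤
        κ / δ * Cm := mul_le_mul_of_nonneg_left hVVC (by positivity)
    have h13 : κ / δ * Cm ≤ M / δ := by
      rw [div_mul_eq_mul_div]
      exact div_le_div_of_nonneg_right hMC hδ0.le
    have h14 : (M : ℝ) / δ ≤ ((M : ℝ) / δ) ^ M := by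
      apply le_self_pow₀
      · rw [le_div_iff₀ hδ0]
        linarith
      · omega
    rw [hVinv]
    linarith
  have hcard : ∀ B' ⊆ BB X b0 ⌊Λ * Real.log X⌋₊, (B'.card : ℝ) ≤ Λ * Real.log X := by
    intro B' hB'
    have h10 : B'.card ≤ ⌊Λ * Real.log X⌋₊ := by
      calc B'.card ≤ (BB X b0 ⌊Λ * Real.log X⌋₊).card := Finset.card_le_card hB'
        _ ≤ (Icc 1 ⌊Λ * Real.log X⌋₊).card := Finset.card_filter_le _ _
        _ = ⌊Λ * Real.log X⌋₊ := by rw [Nat.card_Icc]; omega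
    exact (Nat.le_floor_iff (by positivity)).1 h10
  have hΩV : Ω * (cv / Real.log X) ≤ Ω * VV δ X := mul_le_mul_of_nonneg_left hVVlow hΩ
  have hΩV1 : Ω * VV δ X ≤ Ω := by nlinarith
  have hEa : ∀ K' ≤ K, ∑ D ∈ (PX X).powerset.filter
      (fun D : Finset ℕ => ∏ p ∈ D, (p : ℝ) ≤ (X : ℝ) ^ (1 / 2 - θ)),
      (K' : ℝ) ^ D.card * Er D ≤ Ω / Real.log X ^ (4 * (t + t) + 6) := by
    intro K' hK'
    refine le_trans (Finset.sum_le_sum fun T _ => ?_) hEs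
    apply mul_le_mul_of_nonneg_right _ (hEq.2.1 T)
    exact pow_le_pow_left₀ (Nat.cast_nonneg _) (by exact_mod_cast hK') _
  have hδK : ∀ K' ≤ K, δ * ((K' : ℝ) * b) ≤ θ / 4 := by
    intro K' hK'
    refine le_trans ?_ hδb
    have : (K' : ℝ) ≤ K := by exact_mod_cast hK'
    gcongr
  have hE0 : 0 ≤ Ω / Real.log X ^ (4 * (t + t) + 6) := by positivity
  have hdl := fun (P : Finset ℕ) (hP : ∀ p ∈ P, p.Prime ∧ HH X < p) (U : Finset ℕ)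
    (hU : U.card ≤ 4 * t + 2) (hU' : ∀ a ∈ U, 1 ≤ a ∧ (a : ℝ) ≤ Λ * Real.log X)
    (o : Option ℕ) (ho : ∀ a ∈ o, 1 ≤ a ∧ (a : ℝ) ≤ Λ * Real.log X ∧ a ∉ U) =>
    h1 X hX1 P hP U hU hU' o ho
  constructor
  · intro B hB hBc ho c hc
    have hcore := core_pt2 ha4 hu hsum hθ hθ1 hδ0 hδ8 (hKaK.trans hKb) (hδK Ka hKaK) hV0 hV1 hd1
      hX16 (hKaK.trans hKH) hw1 hw2 hw3 hJ hPi hΛ hΛX hdl hS hDx hΩ hEq (hEa Ka hKaK) D hB
      (hBV B hBc) ho c hc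
    obtain ⟨hL1, hab1⟩ := hab B.card (JJ δ X) (hcard B hB) hJ4
    obtain ⟨_, hab2⟩ := hab4 B.card (JJ δ X) (hcard B hB) hJ4
    have hk1 : (1 : ℝ) ≤ (B.card : ℝ) + 1 := by
      have : (0 : ℝ) ≤ B.card := Nat.cast_nonneg _
      linarith
    have hkp : ((B.card : ℝ) + 1) ^ (4 * t + 2) ≤ ((B.card : ℝ) + 1) ^ (4 * (t + t) + 2) :=
      pow_le_pow_right₀ hk1 (by omega)
    have hab1' : (1 : ℝ) ^ (2 * t + 2) * (K / V ^ K) *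
        (((B.card : ℝ) + 1) ^ (4 * t + 2) * (((JJ δ X : ℝ) + 2) *
          (1 / Real.log X ^ (4 * (t + t) + 6)))) ≤ (s / 3 * cv) / Real.log X := by
      refine le_trans ?_ hab1
      rw [one_pow]
      gcongr
    have hab2' : 1 * (((B.card : ℝ) + 1) ^ (4 * t + 2) * (((JJ δ X : ℝ) + 2) *
        (1 / Real.log X ^ (4 * (t + t) + 6)))) ≤ 1 / Real.log X := by
      refine le_trans ?_ hab2
      gcongr
    have hb' : (1 : ℝ) ^ (2 * t + 2) * (K / V ^ K * (1 / 2 : ℝ) ^ b) ≤ s / 3 := by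
      rw [one_pow]; exact hb
    have hd' : (1 : ℝ) ^ (2 * t + 2) * (K / V ^ K) * (Real.exp (K * d) - 1) ≤ s / 3 := by
      rw [one_pow]; exact hd
    refine ⟨hcore.1.trans ?_, fun a ha => (hcore.2.1 a ha).trans ?_, hcore.2.2.trans ?_⟩
    · have h10 := ef_le zero_le_one hV0 hs hΩ hΩ hb' hd' hab1' (hΩV.trans hΩV1) hL0
      have h11 := Pool.Agent.H372R2.PPSM4.EF_mono (n := t) (b := b) (J := JJ δ X) (k := B.card)
        hKaK hΩ hV0 hV1 hd0.le (le_refl (Ω / Real.log X ^ (4 * (t + t) + 6))) hE0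
      rw [one_pow, one_mul] at h10 ⊢
      linarith
    · have h10 := ef_le zero_le_one hV0 hs hΩ (mul_nonneg hΩ hVVn) hb' hd' hab1' hΩV hL0
      have h11 := Pool.Agent.H372R2.PPSM4.EF_mono (n := t) (b := b) (J := JJ δ X) (k := B.card)
        hKaK (mul_nonneg hΩ hVVn) hV0 hV1 hd0.le (le_refl (Ω / Real.log X ^ (4 * (t + t) + 6))) hE0
      rw [one_pow, one_mul] at h10 ⊢
      linarith
    · have h10 := four_le hΩ hL1 hab2'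
      have h11 := kv_mono hKa hKaK hV0 hV1
      rw [one_pow, one_mul]
      calc (Ka / V) ^ Ka * 2 ^ (4 * t * ⌊2 * Dx / δ⌋₊) *
          (Ω + ((B.card : ℝ) + 1) ^ (4 * t) * (((JJ δ X : ℝ) + 2) *
            (Ω / Real.log X ^ (4 * (t + t) + 6))))
          ≤ (K / V) ^ K * 2 ^ (4 * t * ⌊2 * Dx / δ⌋₊) * (2 * Ω) := by
            gcongr
        _ = _ := by ring
  · intro B1 B2 hdis hB hBc ho
    have hcore := core_cross hx4 hu hsum hθ hθ1 hδ0 hδ8 (hKxK.trans hKb) (hδK Kx hKxK) hV0 hV1 hd1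
      hX16 (hKxK.trans hKH) hw1 hw2 hw3 hJ hPi hΛ hΛX hdl hΩ hEq (hEa Kx hKxK) D hcf hdis hB
      (hBV _ hBc) ho
    obtain ⟨hL1, hab1⟩ := hab (B1 ∪ B2).card (JJ δ X) (hcard _ hB) hJ4
    have hab1' : (1 : ℝ) ^ (2 * (t + t) + 2) * (K / V ^ K) *
        ((((B1 ∪ B2).card : ℝ) + 1) ^ (4 * (t + t) + 2) * (((JJ δ X : ℝ) + 2) *
          (1 / Real.log X ^ (4 * (t + t) + 6)))) ≤ (s / 3 * cv) / Real.log X := by
      rw [one_pow]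
      exact hab1
    have hb' : (1 : ℝ) ^ (2 * (t + t) + 2) * (K / V ^ K * (1 / 2 : ℝ) ^ b) ≤ s / 3 := by
      rw [one_pow]; exact hb
    have hd' : (1 : ℝ) ^ (2 * (t + t) + 2) * (K / V ^ K) * (Real.exp (K * d) - 1) ≤ s / 3 := by
      rw [one_pow]; exact hd
    refine hcore.trans ?_
    have h10 := ef_le zero_le_one hV0 hs hΩ hΩ hb' hd' hab1' (hΩV.trans hΩV1) hL0
    have h11 := Pool.Agent.H372R2.PPSM4.EF_mono (n := t + t) (b := b) (J := JJ δ X)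
      (k := (B1 ∪ B2).card)
      hKxK hΩ hV0 hV1 hd0.le (le_refl (Ω / Real.log X ^ (4 * (t + t) + 6))) hE0
    rw [one_pow, one_mul] at h10
    linarith

end Pool.Agent.R526.AA
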